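import Pool.Agent.P.MP_d7339e_co.Comb

/-! Abstract betweenness relations, metrics that realise them, and extension along flat paths. -/

set_option autoImplicit false

namespace Pool.Agent.P.MP_d7339e_co.H

variable {V : Type}

/-- Nonnegative, and positive in the strict mode. -/
def Ps (st : Prop) (x : ℝ) : Prop := 0 ≤ x ∧ (st → 0 < x)

theorem Ps.mono {st : Prop} {x y : ℝ} (h : Ps st x) (hxy : x ≤ y) : Ps st y :=
  ⟨h.1.trans hxy, fun hs => (h.2 hs).trans_le hxy⟩

theorem Ps.of_pos {st : Prop} {x : ℝ} (h : 0 < x) : Ps st x := ⟨h.le, fun _ => h⟩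

theorem Ps.lt {x : ℝ} (h : Ps True x) : 0 < x := h.2 trivial

/-- The rules obeyed by the betweenness relation of a consistent path system. -/
structure Ax (B : V → V → V → Prop) : Prop where
  refl : ∀ u v, B u u v
  symm : ∀ {u z v}, B u z v → B v z u
  trl : ∀ {u z v y}, B u z v → B u y z → B u y v
  trr : ∀ {u z v y}, B u z v → B u y z → B y z v
  anti : ∀ {u x y}, B u x y → B u y x → x = y
  lin : ∀ {u a b v}, B u a v → B u b v → B u a b ∨ B u b a

/-- No third point lies between `u` and `x`. -/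
def Gap (B : V → V → V → Prop) (u x : V) : Prop := ∀ z, B u z x → z = u ∨ z = x

namespace Ax

variable {B : V → V → V → Prop}

theorem refl' (A : Ax B) (u v : V) : B u v v := A.symm (A.refl v u)

theorem trl' (A : Ax B) {u z v y : V} (h : B u z v) (h' : B z y v) : B u y v :=
  A.symm (A.trl (A.symm h) (A.symm h'))

theorem trr' (A : Ax B) {u z v y : V} (h : B u z v) (h' : B z y v) : B u z y :=
  A.symm (A.trr (A.symm h) (A.symm h'))

theorem meet (A : Ax B) {a u b g : V} (h : B a u b) (h1 : B u g a) (h2 : B u g b) : g = u :=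
  (A.anti (A.trr' h h2) (A.symm h1)).symm

theorem anti' (A : Ax B) {x y v : V} (h : B x y v) (h' : B y x v) : x = y :=
  A.anti (A.symm h') (A.symm h)

theorem self (A : Ax B) {u z : V} (h : B u z u) : z = u := A.anti h (A.refl u z)

theorem gap_symm (A : Ax B) {u x : V} (h : Gap B u x) : Gap B x u :=
  fun z hz => (h z (A.symm hz)).symm

theorem next [Finite V] (A : Ax B) {u v : V} (h : u ≠ v) : ∃ x, x ≠ u ∧ B u x v ∧ Gap B u x := by
  obtain ⟨x, ⟨h1, h2⟩, h3⟩ := Set.exists_min_image {x | x ≠ u ∧ B u x v}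
    (fun x => {z | B u z x}.ncard) (Set.toFinite _) ⟨v, h.symm, A.refl' u v⟩
  refine ⟨x, h1, h2, fun z hz => ?_⟩
  by_contra hc
  push Not at hc
  refine absurd (h3 z ⟨hc.1, A.trl h2 hz⟩) (not_le.2 (Set.ncard_lt_ncard ?_ (Set.toFinite _)))
  refine ⟨fun y hy => A.trl hz hy, fun hs => hc.2 ?_⟩
  exact A.anti hz (hs (A.refl' u x))

theorem gap_iff (A : Ax B) {u g a b : V} (hg : Gap B u g) (h : B u a b) (ha : a ≠ u) :
    B u g a ↔ B u g b := by
  refine ⟨fun h1 => A.trl h h1, fun h1 => ?_⟩
  rcases A.lin h1 h with h2 | h2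
  · exact h2
  · rcases hg a h2 with rfl | rfl
    · exact absurd rfl ha
    · exact A.refl' _ _

end Ax

/-- `D` is a metric on `S` in which the relation `B` holds with equality. -/
structure RealOn (st : Prop) (B : V → V → V → Prop) (S : Set V) (D : V → V → ℝ) : Prop where
  symm : ∀ u v, D u v = D v u
  zero : ∀ u, D u u = 0
  pos : ∀ u ∈ S, ∀ v ∈ S, u ≠ v → 0 < D u v
  add : ∀ u ∈ S, ∀ z ∈ S, ∀ v ∈ S, B u z v → D u v = D u z + D z v
  tri : ∀ u ∈ S, ∀ z ∈ S, ∀ v ∈ S, ¬ B u z v → Ps st (D u z + D z v - D u v)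

theorem RealOn.le {st : Prop} {B : V → V → V → Prop} {S : Set V} {D : V → V → ℝ}
    (R : RealOn st B S D) {u z v : V} (hu : u ∈ S) (hz : z ∈ S) (hv : v ∈ S) :
    D u v ≤ D u z + D z v := by
  by_cases h : B u z v
  · exact (R.add u hu z hz v hv h).le
  · linarith [(R.tri u hu z hz v hv h).1]

theorem RealOn.nonneg {st : Prop} {B : V → V → V → Prop} {S : Set V} {D : V → V → ℝ}
    (R : RealOn st B S D) {u v : V} (hu : u ∈ S) (hv : v ∈ S) : 0 ≤ D u v := by
  by_cases h : u = v
  · rw [h, R.zero]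
  · exact (R.pos u hu v hv h).le

/-- Adding one point that reaches the old points through gates `γ v`. -/
theorem one_point {st : Prop} {B : V → V → V → Prop} {S : Set V} {D : V → V → ℝ} (A : Ax B)
    (R : RealOn st B S D) {u : V} (hu : u ∉ S) (γ : Prop → V) (ℓ : Prop → ℝ) (Q : V → Prop)
    (hγ : ∀ t, γ t ∈ S) (hℓ : ∀ t, 0 < ℓ t) (q1 : ∀ v ∈ S, B u (γ (Q v)) v)
    (qc : ∀ a ∈ S, ∀ b ∈ S, B u a b → Q a = Q b)
    (f1 : ∀ v ∈ S, D u v = ℓ (Q v) + D (γ (Q v)) v)
    (f2 : ∀ v ∈ S, ∀ t, t ≠ Q v → Ps st (ℓ t + D (γ t) v - D u v))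
    (m1 : ∀ t t', t ≠ t' → B (γ t) u (γ t') → ℓ t + ℓ t' = D (γ t) (γ t'))
    (m2 : ∀ t t', t ≠ t' → ¬ B (γ t) u (γ t') → Ps st (ℓ t + ℓ t' - D (γ t) (γ t'))) :
    RealOn st B (insert u S) D := by
  have p0 : ∀ v ∈ S, 0 < D u v := fun v hv => by
    linarith [f1 v hv, hℓ (Q v), R.nonneg (hγ (Q v)) hv]
  have ne : ∀ v ∈ S, v ≠ u := fun v hv e => hu (e ▸ hv)
  have a1 : ∀ a ∈ S, ∀ b ∈ S, B u a b → D u b = D u a + D a b := fun a ha b hb h => by
    have h1 := R.add _ (hγ (Q a)) a ha b hb (A.trr h (q1 a ha))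
    rw [f1 b hb, f1 a ha, ← qc a ha b hb h, h1, add_assoc]
  have a2 : ∀ a ∈ S, ∀ b ∈ S, ¬ B u a b → Ps st (D u a + D a b - D u b) := fun a ha b hb h => by
    by_cases e : Q a = Q b
    · have h1 : ¬ B (γ (Q a)) a b := fun h1 => h (A.trl' (e ▸ q1 b hb) h1)
      refine (R.tri _ (hγ _) a ha b hb h1).mono (le_of_eq ?_)
      rw [f1 b hb, f1 a ha, ← e]
      ring
    · refine (f2 b hb _ e).mono ?_
      linarith [f1 a ha, R.le (hγ (Q a)) ha hb]
  have a3 : ∀ a ∈ S, ∀ b ∈ S, B a u b → D a b = D a u + D u b := fun a ha b hb h => by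
    have e : Q a ≠ Q b := fun e => ne _ (hγ _) (A.meet h (q1 a ha) (e ▸ q1 b hb))
    have h1 : B a u (γ (Q b)) := A.trr' h (q1 b hb)
    have h2 : B a (γ (Q a)) (γ (Q b)) := A.trl h1 (A.symm (q1 a ha))
    have h3 := m1 _ _ e (A.trr h1 (A.symm (q1 a ha)))
    have h4 := R.add a ha _ (hγ _) b hb (A.trl' h (q1 b hb))
    have h5 := R.add a ha _ (hγ _) _ (hγ _) h2
    linarith [f1 a ha, f1 b hb, R.symm a u, R.symm a (γ (Q a))]
  have a4 : ∀ a ∈ S, ∀ b ∈ S, ¬ B a u b → Ps st (D a u + D u b - D a b) := fun a ha b hb h => by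
    have e1 := f1 a ha
    have e2 := f1 b hb
    have e3 := R.symm a u
    have e4 := R.symm a (γ (Q a))
    by_cases e : Q a = Q b
    · refine Ps.of_pos ?_
      rw [← e] at e2
      linarith [R.le ha (hγ (Q a)) hb, hℓ (Q a)]
    · have l1 := R.le ha (hγ (Q b)) hb
      have l2 := R.le ha (hγ (Q a)) (hγ (Q b))
      by_cases h1 : B (γ (Q a)) u (γ (Q b))
      · have h3 := m1 _ _ e h1
        by_cases h2 : B a (γ (Q a)) (γ (Q b))
        · have h4 : ¬ B a (γ (Q b)) b := fun h4 => h (A.trl h4 (A.trl' h2 h1))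
          exact (R.tri a ha _ (hγ _) b hb h4).mono (by linarith)
        · exact (R.tri a ha _ (hγ _) _ (hγ _) h2).mono (by linarith)
      · exact (m2 _ _ e h1).mono (by linarith)
  refine ⟨R.symm, R.zero, ?_, ?_, ?_⟩
  · rintro a (rfl | ha) b (rfl | hb) h
    · exact absurd rfl h
    · exact p0 b hb
    · rw [R.symm]
      exact p0 a ha
    · exact R.pos a ha b hb h
  · rintro a (rfl | ha) z (rfl | hz) b (rfl | hb) h
    · rw [R.zero, add_zero]
    · rw [R.zero, zero_add]
    · exact absurd (A.self h) (ne z hz)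
    · exact a1 z hz b hb h
    · rw [R.zero, add_zero]
    · exact a3 a ha b hb h
    · linarith [a1 z hz a ha (A.symm h), R.symm a b, R.symm z b, R.symm a z]
    · exact R.add a ha z hz b hb h
  · rintro a (rfl | ha) z (rfl | hz) b (rfl | hb) h
    · exact absurd (A.refl _ _) h
    · exact absurd (A.refl _ _) h
    · exact Ps.of_pos (by linarith [p0 z hz, R.symm b z, R.zero b])
    · exact a2 z hz b hb h
    · exact absurd (A.refl' _ _) h
    · exact a4 a ha b hb h
    · exact (a2 z hz a ha fun h' => h (A.symm h')).mono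
        (by linarith [R.symm a b, R.symm z b, R.symm a z])
    · exact R.tri a ha z hz b hb h

/-- A path `c 0, …, c n` whose inner points have no other neighbours. -/
structure Flat (B : V → V → V → Prop) (c : ℕ → V) (n : ℕ) : Prop where
  pos : 0 < n
  inj : ∀ i j, i ≤ n → j ≤ n → c i = c j → i = j
  nb : ∀ k v, 0 < k → k < n → v ≠ c k →
    (B (c k) (c (k - 1)) v ∧ Gap B (c k) (c (k - 1))) ∨
      (B (c k) (c (k + 1)) v ∧ Gap B (c k) (c (k + 1)))

/-- The path from `c k` to `v` starts downwards. -/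
def Dn (B : V → V → V → Prop) (c : ℕ → V) (k : ℕ) (v : V) : Prop :=
  B (c k) (c (k - 1)) v ∧ Gap B (c k) (c (k - 1))

/-- The path from `c k` to `v` starts upwards. -/
def Up (B : V → V → V → Prop) (c : ℕ → V) (k : ℕ) (v : V) : Prop :=
  B (c k) (c (k + 1)) v ∧ Gap B (c k) (c (k + 1))

/-- The inner points. -/
def Inn (c : ℕ → V) (n : ℕ) : Set V := {v | ∃ k, 0 < k ∧ k < n ∧ v = c k}

namespace Flat

variable {B : V → V → V → Prop} {c : ℕ → V} {n : ℕ}

theorem ne (F : Flat B c n) {i j : ℕ} (hi : i ≤ n) (hj : j ≤ n) (h : i ≠ j) : c i ≠ c j :=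
  fun e => h (F.inj i j hi hj e)

theorem up_of (F : Flat B c n) {k : ℕ} {v : V} (h0 : 0 < k) (hn : k < n) (hv : v ≠ c k)
    (h : ¬ Dn B c k v) : Up B c k v := (F.nb k v h0 hn hv).resolve_left h

theorem excl (F : Flat B c n) (A : Ax B) {k : ℕ} {v : V} (h0 : 0 < k) (hn : k < n)
    (h1 : Dn B c k v) (h2 : Up B c k v) : False := by
  rcases A.lin h1.1 h2.1 with h | h
  · rcases h2.2 _ h with e | e <;> exact F.ne (by omega) (by omega) (by omega) e
  · rcases h1.2 _ h with e | e <;> exact F.ne (by omega) (by omega) (by omega) e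

theorem dn_iff (A : Ax B) {k : ℕ} {a b : V} (h : B (c k) a b) (ha : a ≠ c k) :
    Dn B c k a ↔ Dn B c k b :=
  ⟨fun h1 => ⟨(A.gap_iff h1.2 h ha).1 h1.1, h1.2⟩, fun h1 => ⟨(A.gap_iff h1.2 h ha).2 h1.1, h1.2⟩⟩

theorem dn_to (F : Flat B c n) (A : Ax B) {k : ℕ} {v : V} (hn : k < n) (h : Dn B c k v) (j : ℕ)
    (hj : j < k) (hv : ∀ i, j < i → i < k → v ≠ c i) : B (c k) (c j) v ∧ Dn B c (j + 1) v := by
  obtain ⟨d, rfl⟩ : ∃ d, k = j + 1 + d := ⟨k - (j + 1), by omega⟩
  induction d generalizing j with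
  | zero => exact ⟨h.1, h⟩
  | succ d ih =>
    have e : j + 1 + (d + 1) = j + 1 + 1 + d := by omega
    rw [e] at hn h hv ⊢
    obtain ⟨h1, h2⟩ := ih (j + 1) hn h (by omega) (fun i a b => hv i (by omega) b)
    have h3 : Dn B c (j + 1) v := by
      by_contra hc
      have := F.up_of (by omega) (by omega) (hv (j + 1) (by omega) (by omega)) hc
      exact F.ne (by omega) (by omega) (by omega) (A.anti' this.1 h2.1)
    exact ⟨A.trl' h1 h3.1, h3⟩

theorem up_to (F : Flat B c n) (A : Ax B) {k : ℕ} {v : V} (_ : 0 < k) (h : Up B c k v) (j : ℕ)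
    (hk : k ≤ j) (hj : j < n) (hv : ∀ i, k < i → i ≤ j → v ≠ c i) :
    B (c k) (c (j + 1)) v ∧ Up B c j v := by
  induction j, hk using Nat.le_induction with
  | base => exact ⟨h.1, h⟩
  | succ j hk ih =>
    obtain ⟨h1, h2⟩ := ih (by omega) (fun i a b => hv i a (by omega))
    have h3 : Up B c (j + 1) v := by
      refine F.up_of (by omega) hj (hv (j + 1) (by omega) le_rfl) fun hc => ?_
      exact F.ne (by omega) (by omega) (by omega) (A.anti' h2.1 hc.1)
    exact ⟨A.trl' h1 h3.1, h3⟩

theorem dn_zero (F : Flat B c n) (A : Ax B) {k : ℕ} {v : V} (h0 : 0 < k) (hn : k < n)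
    (h : Dn B c k v) (hv : ∀ i, 0 < i → i < k → v ≠ c i) : B (c k) (c 0) v :=
  (F.dn_to A hn h 0 h0 hv).1

theorem up_last (F : Flat B c n) (A : Ax B) {k : ℕ} {v : V} (h0 : 0 < k) (hn : k < n)
    (h : ¬ Dn B c k v) (hv : ∀ i, k ≤ i → i < n → v ≠ c i) : B (c k) (c n) v := by
  have := (F.up_to A h0 (F.up_of h0 hn (hv k le_rfl hn) h) (n - 1) (by omega) (by omega)
    (fun i a b => hv i a.le (by omega))).1
  rwa [show n - 1 + 1 = n by omega] at this

theorem dn_mono (F : Flat B c n) (A : Ax B) {k l : ℕ} {v : V} (h0 : 0 < l) (hl : l ≤ k)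
    (hn : k < n) (h : Dn B c k v) (hv : ∀ i, l ≤ i → i < k → v ≠ c i) : Dn B c l v := by
  have := (F.dn_to A hn h (l - 1) (by omega) (fun i a b => hv i (by omega) b)).2
  rwa [show l - 1 + 1 = l by omega] at this

theorem dir (F : Flat B c n) (A : Ax B) {k l : ℕ} (h0 : 0 < l) (hl : l < k) (hn : k < n) :
    ¬ Dn B c k (c l) ↔ Dn B c l (c k) := by
  constructor
  · intro h
    by_contra hc
    have h1 := F.up_to A h0 (F.up_of h0 (by omega) (F.ne (by omega) (by omega) (by omega)) hc)
      (k - 1) (by omega) (by omega) (fun i a b => F.ne (by omega) (by omega) (by omega))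
    have e : k - 1 + 1 = k := by omega
    have h2 : Gap B (c (k - 1)) (c k) := by
      have := h1.2.2
      rwa [e] at this
    refine h ⟨?_, A.gap_symm h2⟩
    by_cases e' : l = k - 1
    · rw [e']
      exact A.refl' _ _
    · have h3 := (F.up_to A h0 (F.up_of h0 (by omega) (F.ne (by omega) (by omega) (by omega)) hc)
        (k - 2) (by omega) (by omega) (fun i a b => F.ne (by omega) (by omega) (by omega))).1
      rw [show k - 2 + 1 = k - 1 by omega] at h3
      exact A.symm h3
  · intro h h1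
    have h2 := (F.dn_to A hn h1 l hl (fun i a b => F.ne (by omega) (by omega) (by omega))).2
    refine F.excl A h0 (by omega) h ⟨?_, A.gap_symm h2.2⟩
    by_cases e : l + 1 = k
    · rw [e]
      exact A.refl' _ _
    · exact A.symm (F.dn_to A hn h1 (l + 1) (by omega)
        (fun i a b => F.ne (by omega) (by omega) (by omega))).1

theorem not_dn_last (F : Flat B c n) (A : Ax B) {j : ℕ} (h0 : 0 < j) (hn : j + 1 < n)
    (h : B (c j) (c (j + 1)) (c n)) : ¬ Dn B c j (c n) := by
  intro h1
  have h2 := (dn_iff A h (F.ne (by omega) (by omega) (by omega))).2 h1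
  have h3 := F.up_of (by omega) hn (F.ne (by omega) (by omega) (by omega))
    ((F.dir A h0 (Nat.lt_succ_self j) hn).2 h2)
  have h4 : Up B c (j + 1) (c n) := by
    refine F.up_of (by omega) hn (F.ne (by omega) (by omega) (by omega)) fun hc => ?_
    exact F.ne (by omega) (by omega) (by omega) (A.anti' h hc.1)
  exact F.ne (by omega) (by omega) (by omega) (A.meet h h3.1 h4.1)

theorem rev (F : Flat B c n) : Flat B (fun i => c (n - i)) n := by
  refine ⟨F.pos, fun i j hi hj h => ?_, fun k v h0 hn hv => ?_⟩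
  · have := F.inj _ _ (by omega) (by omega) h
    omega
  · have := F.nb (n - k) v (by omega) (by omega) hv
    rw [show n - (k - 1) = n - k + 1 by omega, show n - (k + 1) = n - k - 1 by omega]
    exact this.symm

theorem dn_rev (F : Flat B c n) (A : Ax B) {k : ℕ} {v : V} (h0 : 0 < k) (hn : k < n)
    (hv : v ≠ c (n - k)) : Dn B (fun i => c (n - i)) k v ↔ ¬ Dn B c (n - k) v := by
  have e : Dn B (fun i => c (n - i)) k v ↔ Up B c (n - k) v := by
    simp only [Dn, Up]
    rw [show n - (k - 1) = n - k + 1 by omega]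
  rw [e]
  exact ⟨fun h h' => F.excl A (by omega) (by omega) h' h, F.up_of (by omega) (by omega) hv⟩

end Flat

theorem two_gates {st : Prop} {B : V → V → V → Prop} {S : Set V} {D : V → V → ℝ} (A : Ax B)
    (R : RealOn st B S D) {u g g' : V} (hu : u ∉ S) (hg : g ∈ S) (hg' : g' ∈ S) (Q : V → Prop)
    {α β : ℝ} (hα : 0 < α) (hβ : 0 < β) (q1 : ∀ v ∈ S, Q v → B u g v)
    (q2 : ∀ v ∈ S, ¬ Q v → B u g' v) (qc : ∀ a ∈ S, ∀ b ∈ S, B u a b → (Q a ↔ Q b))
    (f1 : ∀ v ∈ S, Q v → D u v = α + D g v ∧ Ps st (β + D g' v - D u v))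
    (f2 : ∀ v ∈ S, ¬ Q v → D u v = β + D g' v ∧ Ps st (α + D g v - D u v))
    (m1 : B g u g' → α + β = D g g') (m2 : ¬ B g u g' → Ps st (α + β - D g g')) :
    RealOn st B (insert u S) D := by
  classical
  have two : ∀ t t' : Prop, t ≠ t' → (t ∧ ¬ t') ∨ (¬ t ∧ t') := fun t t' h => by
    by_cases a : t <;> by_cases b : t' <;> simp_all
  refine one_point A R hu (fun t => if t then g else g') (fun t => if t then α else β) Q
    (fun t => by split_ifs <;> assumption) (fun t => by split_ifs <;> assumption)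
    (fun v hv => ?_) (fun a ha b hb h => propext (qc a ha b hb h)) (fun v hv => ?_)
    (fun v hv t ht => ?_) (fun t t' h => ?_) (fun t t' h => ?_)
  · split_ifs with h
    exacts [q1 v hv h, q2 v hv h]
  · split_ifs with h
    exacts [(f1 v hv h).1, (f2 v hv h).1]
  · rcases two _ _ ht with ⟨a, b⟩ | ⟨a, b⟩
    · simp only [if_pos a]
      exact (f2 v hv b).2
    · simp only [if_neg a]
      exact (f1 v hv b).2
  · rcases two _ _ h with ⟨a, b⟩ | ⟨a, b⟩ <;> simp only [a, b, if_true, if_false]
    · exact m1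
    · intro h'
      rw [add_comm, R.symm]
      exact m1 (A.symm h')
  · rcases two _ _ h with ⟨a, b⟩ | ⟨a, b⟩ <;> simp only [a, b, if_true, if_false]
    · exact m2
    · intro h'
      rw [add_comm, R.symm]
      exact m2 fun h'' => h' (A.symm h'')

/-- Extension along a flat path with prescribed positions `a k`. -/
theorem ext_pos {st : Prop} {B : V → V → V → Prop} {S : Set V} {D : V → V → ℝ} {c : ℕ → V}
    {n : ℕ} (A : Ax B) (F : Flat B c n) (R : RealOn st B S D) (hx : c 0 ∈ S) (hy : c n ∈ S)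
    (hS : ∀ k, 0 < k → k < n → c k ∉ S) (a : ℕ → ℝ) (a0 : a 0 = 0)
    (ha : ∀ k, k < n → a k < a (k + 1))
    (g1 : B (c 0) (c 1) (c n) → a n = D (c 0) (c n))
    (g2 : ¬ B (c 0) (c 1) (c n) → Ps st (a n - D (c 0) (c n)))
    (e1 : ∀ k, 0 < k → k < n → ∀ v ∈ S,
      (Dn B c k v → Ps st (a n - a k + D (c n) v - (a k + D (c 0) v))) ∧
      (¬ Dn B c k v → Ps st (a k + D (c 0) v - (a n - a k + D (c n) v))))
    (e2 : ∀ l k, 0 < l → l < k → k < n →
      (Dn B c k (c l) → Ps st (D (c 0) (c n) + a n - (a k - a l) - (a k - a l))) ∧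
      (¬ Dn B c k (c l) → Ps st (a k - a l - (D (c 0) (c n) + a n - (a k - a l))))) :
    ∃ D', RealOn st B (S ∪ Inn c n) D' ∧ (∀ u ∈ S, ∀ v ∈ S, D' u v = D u v) ∧
      ∀ k, 0 < k → k < n → ∀ v ∈ S,
        D' (c k) v = min (a k + D (c 0) v) (a n - a k + D (c n) v) := by
  classical
  set L := D (c 0) (c n) with hL
  have L0 : 0 ≤ L := R.nonneg hx hy
  have hT : L ≤ a n := by
    by_cases h : B (c 0) (c 1) (c n)
    · exact (g1 h).ge
    · linarith [(g2 h).1]
  have am : ∀ i j, i ≤ j → j ≤ n → a i ≤ a j := fun i j h1 h2 => by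
    induction j, h1 using Nat.le_induction with
    | base => exact le_rfl
    | succ j hj ih => exact (ih (by omega)).trans (ha j (by omega)).le
  let ι : V → ℕ := fun v => if h : v ∈ Inn c n then h.choose else 0
  have i1 : ∀ v ∈ S, ι v = 0 := fun v hv => dif_neg (by
    rintro ⟨k, h1, h2, rfl⟩
    exact hS k h1 h2 hv)
  have i2 : ∀ k, 0 < k → k < n → ι (c k) = k := fun k h1 h2 => by
    have h : c k ∈ Inn c n := ⟨k, h1, h2, rfl⟩
    have := h.choose_spec
    exact (dif_pos h).trans (F.inj _ _ this.2.1.le h2.le this.2.2.symm)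
  let m : ℕ → V → ℝ := fun k v => min (a k + D (c 0) v) (a n - a k + D (c n) v)
  let e : ℕ → ℕ → ℝ := fun k l => min |a k - a l| (L + a n - |a k - a l|)
  let D' : V → V → ℝ := fun u v => if ι u = 0 then (if ι v = 0 then D u v else m (ι v) u)
    else if ι v = 0 then m (ι u) v else e (ι u) (ι v)
  have sy : ∀ u v, D' u v = D' v u := fun u v => by
    simp only [D', e]
    split_ifs
    exacts [R.symm u v, rfl, rfl, by rw [abs_sub_comm]]
  have d1 : ∀ u ∈ S, ∀ v ∈ S, D' u v = D u v := fun u hu v hv => by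
    simp only [D', i1 u hu, i1 v hv, if_true]
  have d2 : ∀ k, k < n → ∀ v ∈ S, D' (c k) v = m k v := fun k hk v hv => by
    rcases Nat.eq_zero_or_pos k with rfl | h
    · rw [d1 _ hx v hv]
      simp only [m, a0, zero_add, sub_zero]
      exact (min_eq_left (by linarith [R.le hx hy hv])).symm
    · simp only [D', i1 v hv, i2 k h hk, h.ne', if_true, if_false]
  have d3 : ∀ k l, k < n → 0 < l → l < n → D' (c k) (c l) = e k l := fun k l hk h0 hl => by
    rcases Nat.eq_zero_or_pos k with rfl | h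
    · rw [sy, d2 l hl _ hx]
      have : 0 ≤ a l := a0 ▸ am 0 l (by omega) hl.le
      simp only [m, e, a0, zero_sub, abs_neg, abs_of_nonneg this, R.zero, add_zero]
      rw [R.symm (c n), ← hL]
      exact congrArg _ (by ring)
    · simp only [D', i2 k h hk, i2 l h0 hl, h.ne', h0.ne', if_false]
  have main : ∀ k, k < n → RealOn st B (S ∪ Inn c (k + 1)) D' := by
    intro k
    induction k with
    | zero =>
      intro _
      have : S ∪ Inn c (0 + 1) = S := Set.union_eq_left.2 (by
        rintro v ⟨k, h1, h2, -⟩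
        omega)
      rw [this]
      refine ⟨sy, fun u => ?_, fun u hu v hv h => ?_, fun u hu z hz v hv h => ?_,
        fun u hu z hz v hv h => ?_⟩
      · simp only [D', e]
        split_ifs
        · exact R.zero u
        · rw [sub_self, abs_zero]
          exact min_eq_left (by linarith)
      · rw [d1 u hu v hv]
        exact R.pos u hu v hv h
      · rw [d1 u hu v hv, d1 u hu z hz, d1 z hz v hv]
        exact R.add u hu z hz v hv h
      · rw [d1 u hu v hv, d1 u hu z hz, d1 z hz v hv]
        exact R.tri u hu z hz v hv h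
    | succ j ih =>
      intro hk
      have eS : S ∪ Inn c (j + 1 + 1) = insert (c (j + 1)) (S ∪ Inn c (j + 1)) := by
        ext v
        simp only [Set.mem_union, Set.mem_insert_iff, Inn, Set.mem_ofPred_eq]
        constructor
        · rintro (h | ⟨k, h1, h2, rfl⟩)
          · exact Or.inr (Or.inl h)
          · by_cases e : k = j + 1
            · exact Or.inl (by rw [e])
            · exact Or.inr (Or.inr ⟨k, h1, by omega, rfl⟩)
        · rintro (rfl | h | ⟨k, h1, h2, rfl⟩)
          · exact Or.inr ⟨j + 1, by omega, by omega, rfl⟩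
          · exact Or.inl h
          · exact Or.inr ⟨k, h1, by omega, rfl⟩
      have out : ∀ v ∈ S ∪ Inn c (j + 1), ∀ i, j + 1 ≤ i → i < n → v ≠ c i := by
        rintro v (h | ⟨k, h1, h2, rfl⟩) i b1 b2
        · rintro rfl
          exact hS i (by omega) b2 h
        · exact F.ne (by omega) (by omega) (by omega)
      have s1 := ha j (by omega)
      have s2 : a (j + 1) < a n := (ha _ hk).trans_le (am _ _ hk le_rfl)
      have s3 : 0 ≤ a j := a0 ▸ am 0 j (by omega) (by omega)
      have dy : ∀ l, 0 < l → l < n → D' (c n) (c l) = min (a l + L) (a n - a l) := fun l b1 b2 => by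
        rw [sy, d2 l b2 _ hy]
        simp only [m, R.zero, add_zero, hL]
      rw [eS]
      refine two_gates A (ih (by omega)) (g := c j) (g' := c n)
        (fun h => out _ h _ le_rfl hk rfl) ?_ (Or.inl hy) (Dn B c (j + 1))
        (α := a (j + 1) - a j) (β := a n - a (j + 1)) (by linarith) (by linarith)
        (fun v _ h => h.1) (fun v hv h => F.up_last A (by omega) hk h (out v hv))
        (fun x hx' b _ h => Flat.dn_iff A h (out x hx' _ le_rfl hk)) ?_ ?_ ?_ ?_
      · rcases Nat.eq_zero_or_pos j with rfl | h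
        · exact Or.inl hx
        · exact Or.inr ⟨j, h, by omega, rfl⟩
      · rintro v (hv | ⟨l, b1, b2, rfl⟩) h
        · have h1 := (e1 _ (by omega) hk v hv).1 h
          rw [d2 _ hk v hv, d2 j (by omega) v hv, d1 _ hy v hv]
          simp only [m]
          rw [min_eq_left (by linarith [h1.1]), min_eq_left (by linarith [h1.1])]
          exact ⟨by ring, h1⟩
        · have h1 := (e2 l _ b1 b2 hk).1 h
          have h2 := am l j (by omega) (by omega)
          rw [d3 _ l hk b1 (by omega), d3 j l (by omega) b1 (by omega), dy l b1 (by omega)]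
          simp only [e]
          rw [abs_of_nonneg (by linarith), abs_of_nonneg (by linarith),
            min_eq_left (by linarith [h1.1]), min_eq_left (by linarith [h1.1])]
          refine ⟨by ring, ?_⟩
          rcases min_choice (a l + L) (a n - a l) with h3 | h3 <;> rw [h3]
          · exact h1.mono (by linarith)
          · exact Ps.of_pos (by linarith)
      · rintro v (hv | ⟨l, b1, b2, rfl⟩) h
        · have h1 := (e1 _ (by omega) hk v hv).2 h
          rw [d2 _ hk v hv, d2 j (by omega) v hv, d1 _ hy v hv]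
          simp only [m]
          rw [min_eq_right (by linarith [h1.1])]
          refine ⟨rfl, ?_⟩
          rcases min_choice (a j + D (c 0) v) (a n - a j + D (c n) v) with h3 | h3 <;> rw [h3]
          · exact h1.mono (by linarith)
          · exact Ps.of_pos (by linarith)
        · have h1 := (e2 l _ b1 b2 hk).2 h
          have h2 := am l j (by omega) (by omega)
          have h4 : 0 ≤ a l := a0 ▸ am 0 l (by omega) (by omega)
          rw [d3 _ l hk b1 (by omega), d3 j l (by omega) b1 (by omega), dy l b1 (by omega)]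
          simp only [e]
          rw [abs_of_nonneg (by linarith), abs_of_nonneg (by linarith),
            min_eq_right (by linarith [h1.1]), min_eq_left (a := a l + L) (by linarith [h1.1])]
          refine ⟨by ring, ?_⟩
          rcases min_choice (a j - a l) (L + a n - (a j - a l)) with h3 | h3 <;> rw [h3]
          · exact h1.mono (by linarith)
          · exact Ps.of_pos (by linarith)
      · intro h
        rw [d2 j (by omega) _ hy]
        simp only [m, R.zero, add_zero]
        rcases Nat.eq_zero_or_pos j with rfl | hj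
        · rw [min_eq_right (by linarith [g1 h])]
          ring
        · have h1 := ((e1 j hj (by omega) _ hy).2 (F.not_dn_last A hj hk h)).1
          rw [R.zero] at h1
          rw [min_eq_right (by linarith)]
          ring
      · intro h
        rw [d2 j (by omega) _ hy]
        simp only [m, R.zero, add_zero]
        rcases Nat.eq_zero_or_pos j with rfl | hj
        · exact (g2 h).mono (by linarith [min_le_left (a 0 + L) (a n - a 0)])
        · have h0 : Dn B c j (c n) := by
            by_contra hc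
            exact h (F.up_of hj (by omega) (F.ne (by omega) (by omega) (by omega)) hc).1
          have h1 := (e1 j hj (by omega) _ hy).1 h0
          rw [R.zero] at h1
          exact h1.mono (by linarith [min_le_left (a j + L) (a n - a j)])
  have := main (n - 1) (by have := F.pos; omega)
  rw [show n - 1 + 1 = n by have := F.pos; omega] at this
  exact ⟨D', this, d1, fun k _ hk => d2 k hk⟩

end Pool.Agent.P.MP_d7339e_co.H
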