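import Pool.Agent.P.MP_d7339e_co.Defs

set_option autoImplicit false

namespace Pool.Agent.P.MP_d7339e_co

/-- `G` is strictly metrizable: for every consistent path system `P` there are positive edge
weights for which each chosen path is the unique shortest path between its ends. -/
def StrictlyMetrizable {V : Type} (G : SimpleGraph V) : Prop :=
  ∀ P : (u v : V) → G.Walk u v,
    (∀ u v, (P u v).IsPath) →
    (∀ u v, P v u = (P u v).reverse) →
    (∀ (u v x y : V) (q : G.Walk x y), q.IsSubwalk (P u v) → q = P x y) →
    ∃ w : Sym2 V → ℝ, (∀ e ∈ G.edgeSet, 0 < w e) ∧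
      ∀ (u v : V) (q : G.Walk u v), q.IsPath → q ≠ P u v →
        ((P u v).edges.map w).sum < (q.edges.map w).sum

/-- `x` and `y` are joined in `G` by a path with at least two edges such that every edge of `G`
at an inner vertex of the path is an edge of the path (the inner vertices have degree 2). -/
def FlatPair {V : Type} (G : SimpleGraph V) (x y : V) : Prop :=
  ∃ p : G.Walk x y, p.IsPath ∧ 2 ≤ p.length ∧
    ∀ z ∈ p.support, z ≠ x → z ≠ y → ∀ t, G.Adj z t → s(z, t) ∈ p.edges

/-- `G` consists of two disjoint paths `A` from `p` to `q` and `C` from `r` to `t`, each with at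
least one edge, one more vertex `h`, and some of the seven edges `pr, pt, qt, hp, hq, hr, ht`. -/
def IsBase {V : Type} (G : SimpleGraph V) : Prop :=
  ∃ (p q r t h : V) (A : G.Walk p q) (C : G.Walk r t), A.IsPath ∧ C.IsPath ∧ p ≠ q ∧ r ≠ t ∧
    (∀ v ∈ A.support, v ∉ C.support) ∧ h ∉ A.support ∧ h ∉ C.support ∧
    (∀ v, v ∈ A.support ∨ v ∈ C.support ∨ v = h) ∧
    ∀ e ∈ G.edgeSet, e ∈ A.edges ∨ e ∈ C.edges ∨
      e ∈ [s(p, r), s(p, t), s(q, t), s(h, p), s(h, q), s(h, r), s(h, t)]

/-- The graphs obtained from a base graph by repeatedly deleting edges and adding an edge between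
the ends of a flat path. -/
inductive Derived {V : Type} : SimpleGraph V → Prop
  | base {G : SimpleGraph V} : IsBase G → Derived G
  | delete {G G' : SimpleGraph V} : Derived G → G' ≤ G → Derived G'
  | add {G : SimpleGraph V} {x y : V} :
      Derived G → FlatPair G x y → Derived (G ⊔ SimpleGraph.edge x y)

end Pool.Agent.P.MP_d7339e_co
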