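import Pool.Agent.P.MP_d7339e_co.H.Abs

/-! Extension along a flat path with prescribed thresholds, and along two flat paths. -/

set_option autoImplicit false

namespace Pool.Agent.P.MP_d7339e_co.H

variable {V : Type}

theorem two_chain' (N : ℕ) (S : ℕ → ℕ → Prop)
    (hS : ∀ k l k' l', S k l → k' ≤ k → l' ≤ l → S k' l') :
    ∃ x y : ℕ → ℝ, StrictMono x ∧ StrictMono y ∧
      (∀ k l, k ≤ N → l ≤ N → S k l → x k + y l < 0) ∧ (∀ k l, ¬ S k l → 0 < x k + y l) := by
  obtain ⟨x, y, hx, hy, h1, h2⟩ := two_chain (2 * N + 2) (fun i j => S (i / 2) (j / 2))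
    (fun k l k' l' h a b => hS _ _ _ _ h (by omega) (by omega))
  refine ⟨fun k => x (2 * k), fun l => y (2 * l + 1), fun a b h => ?_, fun a b h => ?_,
    fun k l hk hl h => ?_, fun k l h => ?_⟩
  · exact Int.cast_lt.2 (hx (by omega))
  · exact Int.cast_lt.2 (hy (by omega))
  · have a := h1 (2 * k + 1) (2 * l + 1) (by omega) (by omega) (hS _ _ _ _ h (by omega) (by omega))
    have b := hx (show 2 * k < 2 * k + 1 by omega)
    beta_reduce
    exact_mod_cast (by omega : x (2 * k) + y (2 * l + 1) < 0)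
  · have a := h2 (2 * k) (2 * l) fun h' => h (hS _ _ _ _ h' (by omega) (by omega))
    have b := hy (show 2 * l < 2 * l + 1 by omega)
    beta_reduce
    exact_mod_cast (by omega : 0 < x (2 * k) + y (2 * l + 1))

/-- Strictly decreasing thresholds between prescribed lower and upper marks. -/
theorem thr {Z : Type} [Finite Z] (g : Z → ℝ) (Lo Hi : ℕ → Z → Prop)
    (h : ∀ l k z z', l ≤ k → Lo k z → Hi l z' → g z < g z') :
    ∃ θ : ℕ → ℝ, (∀ l k, l < k → θ k < θ l) ∧ (∀ k z, Lo k z → g z < θ k) ∧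
      ∀ k z, Hi k z → θ k < g z := by
  obtain ⟨C, hC⟩ := (Set.finite_range fun z => |g z|).bddAbove
  have hb : ∀ z, -C ≤ g z ∧ g z ≤ C := fun z => abs_le.1 (hC ⟨z, rfl⟩)
  let P : ℕ → Set ℝ := fun k => insert (-|C| - 1) (g '' {z | ∃ j, k ≤ j ∧ Lo j z})
  let Q : ℕ → Set ℝ := fun k => insert (|C| + 1) (g '' {z | ∃ j, j ≤ k ∧ Hi j z})
  have fP : ∀ k, (P k).Finite := fun k => ((Set.toFinite _).image g).insert _
  have fQ : ∀ k, (Q k).Finite := fun k => ((Set.toFinite _).image g).insert _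
  have c1 := le_abs_self C
  have c2 := abs_nonneg C
  have lt : ∀ k, sSup (P k) < sInf (Q k) := fun k => by
    rcases (Set.insert_nonempty _ _).csSup_mem (fP k) with e | ⟨z, ⟨j, a, b⟩, e⟩ <;>
      rcases (Set.insert_nonempty _ _).csInf_mem (fQ k) with e' | ⟨z', ⟨j', a', b'⟩, e'⟩
    · linarith
    · linarith [hb z']
    · linarith [hb z]
    · linarith [h j' j z z' (by omega) b b']
  have mP : ∀ l k, l ≤ k → sSup (P k) ≤ sSup (P l) := fun l k hl =>
    csSup_le_csSup (fP l).bddAbove (Set.insert_nonempty _ _) (Set.insert_subset_insert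
      (Set.image_mono fun z ⟨j, a, b⟩ => ⟨j, by omega, b⟩))
  have mQ : ∀ l k, l ≤ k → sInf (Q k) ≤ sInf (Q l) := fun l k hl =>
    csInf_le_csInf (fQ k).bddBelow (Set.insert_nonempty _ _) (Set.insert_subset_insert
      (Set.image_mono fun z ⟨j, a, b⟩ => ⟨j, by omega, b⟩))
  let t : ℕ → ℝ := fun k => 1 / ((k : ℝ) + 2)
  have t0 : ∀ k, 0 < t k := fun k => by positivity
  have t1 : ∀ k, t k < 1 := fun k => by
    rw [div_lt_one (by positivity)]
    linarith [Nat.cast_nonneg (α := ℝ) k]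
  refine ⟨fun k => (1 - t k) * sSup (P k) + t k * sInf (Q k), fun l k hl => ?_,
    fun k z hz => ?_, fun k z hz => ?_⟩
  · have a : t k < t l := one_div_lt_one_div_of_lt (by positivity)
      (by linarith [(Nat.cast_lt (α := ℝ)).2 hl])
    have b := mul_le_mul_of_nonneg_left (mP l k hl.le) (sub_pos.2 (t1 k)).le
    have c := mul_le_mul_of_nonneg_left (mQ l k hl.le) (t0 k).le
    have d := mul_pos (sub_pos.2 a) (sub_pos.2 (lt l))
    simp only
    linarith
  · have a : g z ≤ sSup (P k) := le_csSup (fP k).bddAbove (Or.inr ⟨z, ⟨k, le_rfl, hz⟩, rfl⟩)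
    have d := mul_pos (t0 k) (sub_pos.2 (lt k))
    simp only
    linarith
  · have a : sInf (Q k) ≤ g z := csInf_le (fQ k).bddBelow (Or.inr ⟨z, ⟨k, le_rfl, hz⟩, rfl⟩)
    have d := mul_pos (sub_pos.2 (t1 k)) (sub_pos.2 (lt k))
    simp only
    linarith

/-- Inner points that reach both ends along the path. -/
def Mid (B : V → V → V → Prop) (c : ℕ → V) (n k : ℕ) : Prop :=
  0 < k ∧ k < n ∧ Dn B c k (c 0) ∧ ¬ Dn B c k (c n)

theorem Flat.all_mid {B : V → V → V → Prop} {c : ℕ → V} {n : ℕ} (F : Flat B c n) (A : Ax B)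
    (h : B (c 0) (c 1) (c n)) (k : ℕ) (h0 : 0 < k) (hn : k < n) : Mid B c n k := by
  have key : ∀ k, 0 < k → k < n → B (c 0) (c k) (c n) → Mid B c n k := fun k h0 hn h => by
    refine ⟨h0, hn, ?_, fun hc => ?_⟩
    · by_contra hc
      have := F.up_last A h0 hn hc fun i a b => F.ne (by omega) (by omega) (by omega)
      exact F.ne (by omega) (by omega) (by omega) (A.anti h (A.symm this))
    · have := F.dn_zero A h0 hn hc fun i a b => F.ne (by omega) (by omega) (by omega)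
      exact F.ne (by omega) (by omega) (by omega) (A.anti' h this)
  refine key k h0 hn ?_
  induction k, (show 1 ≤ k from h0) using Nat.le_induction with
  | base => exact h
  | succ j hj ih =>
    have h1 := ih hj (by omega)
    exact A.trl' h1 (F.up_of hj (by omega) (F.ne (by omega) (by omega) (by omega))
      (key j hj (by omega) h1).2.2.2).1

theorem Flat.dn_all {B : V → V → V → Prop} {c : ℕ → V} {n k : ℕ} (F : Flat B c n) (A : Ax B)
    (h0 : 0 < k) (hn : k < n) (h : Dn B c k (c n)) {v : V} (hv : ∀ i, k ≤ i → i < n → v ≠ c i) :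
    Dn B c k v := by
  by_contra hc
  exact hc ((Flat.dn_iff A (F.up_last A h0 hn hc hv) (F.ne (by omega) (by omega) (by omega))).1 h)

theorem Flat.dn_none {B : V → V → V → Prop} {c : ℕ → V} {n k : ℕ} (F : Flat B c n) (A : Ax B)
    (h0 : 0 < k) (hn : k < n) {v : V} (h : Dn B c k v) (hv : ∀ i, 0 < i → i < k → v ≠ c i) :
    Dn B c k (c 0) :=
  (Flat.dn_iff A (F.dn_zero A h0 hn h hv) (F.ne (by omega) (by omega) (by omega))).2 h

/-- Extension along a flat path with prescribed thresholds on the middle points. -/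
theorem ext_theta {st : Prop} {B : V → V → V → Prop} {S : Set V} {D : V → V → ℝ} {c : ℕ → V}
    {n : ℕ} (A : Ax B) (F : Flat B c n) (R : RealOn st B S D) (hx : c 0 ∈ S) (hy : c n ∈ S)
    (hS : ∀ k, 0 < k → k < n → c k ∉ S) (θ : ℕ → ℝ)
    (hθ : ∀ l k, l < k → Mid B c n l → Mid B c n k → θ k < θ l)
    (hc : ∀ k, Mid B c n k → ∀ v ∈ S,
      (Dn B c k v → Ps st (θ k - (D (c 0) v - D (c n) v))) ∧
      (¬ Dn B c k v → Ps st (D (c 0) v - D (c n) v - θ k)))
    (hg : B (c 0) (c 1) (c n) → ∀ k, Mid B c n k →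
      -D (c 0) (c n) < θ k ∧ θ k < D (c 0) (c n)) :
    ∃ D', RealOn st B (S ∪ Inn c n) D' ∧ (∀ u ∈ S, ∀ v ∈ S, D' u v = D u v) ∧
      ∀ k, Mid B c n k → D' (c k) (c n) - D' (c k) (c 0) = θ k := by
  classical
  have n0 := F.pos
  set L := D (c 0) (c n) with hL
  have L0 : 0 < L := R.pos _ hx _ hy (F.ne (by omega) le_rfl (by omega))
  have L1 : D (c n) (c 0) = L := R.symm _ _
  have out : ∀ v ∈ S, ∀ i, 0 < i → i < n → v ≠ c i := fun v hv i a b e => hS i a b (e ▸ hv)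
  obtain ⟨X, Y, hX, hY, c1, c2⟩ := two_chain' n
    (fun i j => ∃ l k, (0 < l ∧ l < k ∧ k < n ∧ ¬ Dn B c k (c l)) ∧ i ≤ l ∧ j + k ≤ n)
    (fun _ _ _ _ ⟨l, k, h, a, b⟩ _ _ => ⟨l, k, h, by omega, by omega⟩)
  set W := |X 0| + |X n| + |Y 0| + |Y n| + 1 with hW
  have bd : ∀ i, i ≤ n → -W < X i ∧ X i < W ∧ -W < Y i ∧ Y i < W := fun i hi => by
    have a1 := hX.monotone hi
    have a2 := hY.monotone hi
    have a3 := hX.monotone (Nat.zero_le i)
    have a4 := hY.monotone (Nat.zero_le i)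
    have b1 := abs_nonneg (X 0)
    have b2 := abs_nonneg (X n)
    have b3 := abs_nonneg (Y 0)
    have b4 := abs_nonneg (Y n)
    refine ⟨?_, ?_, ?_, ?_⟩ <;>
      linarith [neg_abs_le (X 0), le_abs_self (X n), neg_abs_le (Y 0), le_abs_self (Y n)]
  have W0 : 0 < W := by linarith [bd 0 (by omega)]
  set T := if B (c 0) (c 1) (c n) then L else L + 2 * W with hT
  have T0 : L ≤ T := by
    rw [hT]
    split_ifs <;> linarith
  let Θ : ℕ → ℝ := fun k => if k = 0 then T else if k = n then -T else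
    if Dn B c k (c n) then L + W - X k else if Dn B c k (c 0) then θ k else -(L + W - Y (n - k))
  have t0 : Θ 0 = T := if_pos rfl
  have tn : Θ n = -T := by simp only [Θ, n0.ne', if_true, if_false]
  have cs : ∀ k, 0 < k → k < n →
      (Dn B c k (c n) ∧ T = L + 2 * W ∧ Θ k = L + W - X k ∧ L < Θ k ∧ Θ k < T) ∨
      (¬ Dn B c k (c 0) ∧ ¬ Dn B c k (c n) ∧ T = L + 2 * W ∧ Θ k = -(L + W - Y (n - k)) ∧
        -T < Θ k ∧ Θ k < -L) ∨
      (Mid B c n k ∧ Θ k = θ k ∧ -L ≤ Θ k ∧ Θ k ≤ L ∧ -T < Θ k ∧ Θ k < T) := fun k h0 hn => by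
    have b1 := bd k hn.le
    have b2 := bd (n - k) (by omega)
    by_cases a1 : Dn B c k (c n)
    · have e : T = L + 2 * W := if_neg fun h => (F.all_mid A h k h0 hn).2.2.2 a1
      have e' : Θ k = L + W - X k := by simp only [Θ, h0.ne', hn.ne, a1, if_true, if_false]
      exact Or.inl ⟨a1, e, e', by linarith, by linarith⟩
    by_cases a2 : Dn B c k (c 0)
    · have e' : Θ k = θ k := by simp only [Θ, h0.ne', hn.ne, a1, a2, if_true, if_false]
      have m : Mid B c n k := ⟨h0, hn, a2, a1⟩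
      have p1 := ((hc k m _ hx).1 a2).1
      have p2 := ((hc k m _ hy).2 a1).1
      rw [R.zero] at p1 p2
      refine Or.inr (Or.inr ⟨m, e', by linarith, by linarith, ?_⟩)
      by_cases h : B (c 0) (c 1) (c n)
      · have e : T = L := if_pos h
        constructor <;> linarith [hg h k m]
      · have e : T = L + 2 * W := if_neg h
        constructor <;> linarith
    · have e : T = L + 2 * W := if_neg fun h => a2 (F.all_mid A h k h0 hn).2.2.1
      have e' : Θ k = -(L + W - Y (n - k)) := by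
        simp only [Θ, h0.ne', hn.ne, a1, a2, if_false]
      exact Or.inr (Or.inl ⟨a2, a1, e, e', by linarith, by linarith⟩)
  refine (ext_pos A F R hx hy hS (fun k => (T - Θ k) / 2) (by rw [t0]; ring)
    (fun k hk => ?_) (fun h => ?_) (fun h => ?_) (fun k h0 hn v hv => ?_)
    (fun l k h0 hl hn => ?_)).imp fun D' ⟨R', d1, d2⟩ => ⟨R', d1, fun k m => ?_⟩
  · suffices Θ (k + 1) < Θ k by linarith
    rcases Nat.eq_zero_or_pos k with rfl | h0
    · by_cases e : 0 + 1 = n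
      · rw [e]
        linarith
      · rcases cs (0 + 1) (by omega) (by omega) with h | h | h <;> linarith
    by_cases e : k + 1 = n
    · rw [e]
      rcases cs k h0 hk with h | h | h <;> linarith
    have m1 : ∀ v ∈ S, Dn B c (k + 1) v → Dn B c k v := fun v hv h =>
      F.dn_mono A h0 (by omega) (by omega) h fun i a b => out v hv i (by omega) (by omega)
    rcases cs k h0 hk with h | h | h <;> rcases cs (k + 1) (by omega) (by omega) with h' | h' | h'
    · linarith [hX (Nat.lt_succ_self k)]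
    · linarith
    · linarith
    · exact absurd (m1 _ hy h'.1) h.2.1
    · linarith [hY (show n - (k + 1) < n - k by omega)]
    · exact absurd (m1 _ hx h'.1.2.2.1) h.1
    · exact absurd (m1 _ hy h'.1) h.1.2.2.2
    · linarith
    · linarith [hθ k (k + 1) (by omega) h.1 h'.1]
  · have e : T = L := if_pos h
    rw [tn]
    linarith
  · have e : T = L + 2 * W := if_neg h
    rw [tn]
    exact Ps.of_pos (by linarith)
  · have l1 := R.le hx hy hv
    have l2 := R.le hy hx hv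
    rw [tn]
    rcases cs k h0 hn with h | h | h
    · exact ⟨fun _ => Ps.of_pos (by linarith),
        fun h' => absurd (F.dn_all A h0 hn h.1 fun i a b => out v hv i (by omega) b) h'⟩
    · exact ⟨fun h' => absurd (F.dn_none A h0 hn h' fun i a b => out v hv i a (by omega)) h.1,
        fun _ => Ps.of_pos (by linarith)⟩
    · exact ⟨fun h' => ((hc k h.1 v hv).1 h').mono (by linarith),
        fun h' => ((hc k h.1 v hv).2 h').mono (by linarith)⟩
  · rw [tn]
    constructor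
    · intro hd
      refine Ps.of_pos ?_
      have a : 0 < X l + Y (n - k) := c2 _ _ fun ⟨l', k', ⟨a1, a2, a3, a4⟩, a5, a6⟩ => by
        have b1 := (F.up_to A (by omega) (F.up_of (by omega) a3
          (F.ne (by omega) (by omega) (by omega)) a4) k (by omega) hn
          fun i a b => F.ne (by omega) (by omega) (by omega)).2
        have b2 := (F.dir A a1 (by omega) hn).1 fun h => F.excl A (by omega) hn h b1
        exact (F.dir A h0 hl hn).2 (F.dn_mono A h0 a5 (by omega) b2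
          fun i a b => F.ne (by omega) (by omega) (by omega)) hd
      rcases cs l h0 (by omega) with h | h | h <;> rcases cs k (by omega) hn with h' | h' | h' <;>
        linarith
    · intro hd
      refine Ps.of_pos ?_
      have a := c1 l (n - k) (by omega) (by omega) ⟨l, k, ⟨h0, hl, hn, hd⟩, le_rfl, by omega⟩
      have b1 := (F.dir A h0 hl hn).1 hd
      have b2 := F.up_last A (by omega) hn hd fun i a b => F.ne (by omega) (by omega) (by omega)
      have b3 := F.dn_zero A h0 (by omega) b1 fun i a b => F.ne (by omega) (by omega) (by omega)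
      have b4 : B (c l) (c n) (c k) := A.symm b2
      have b5 := (Flat.dn_iff A b4 (F.ne (by omega) (by omega) (by omega))).2 b1
      have b6 : ¬ Dn B c k (c 0) := fun h =>
        hd ((Flat.dn_iff A (A.symm b3) (F.ne (by omega) (by omega) (by omega))).1 h)
      rcases cs l h0 (by omega) with h | h | h
      · rcases cs k (by omega) hn with h' | h' | h'
        · exact absurd (F.dn_none A (by omega) hn h'.1
            fun i a b => F.ne (by omega) (by omega) (by omega)) b6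
        · linarith
        · exact absurd h'.1.2.2.1 b6
      · exact absurd b5 h.2.1
      · exact absurd b5 h.1.2.2.2
  · rcases cs k m.1 m.2.1 with h | h | h
    · exact absurd h.1 m.2.2.2
    · exact absurd m.2.2.1 h.1
    · rw [d2 k m.1 m.2.1 _ hx, d2 k m.1 m.2.1 _ hy, R.zero, R.zero, tn, L1, ← hL,
        min_eq_right (by linarith), min_eq_left (by linarith)]
      linarith

/-- `v` is not an inner point. -/
def Out (c : ℕ → V) (n : ℕ) (v : V) : Prop := ∀ i, 0 < i → i < n → v ≠ c i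

theorem Flat.nest {B : V → V → V → Prop} {c : ℕ → V} {n l i : ℕ} {v : V} (F : Flat B c n)
    (A : Ax B) (h0 : 0 < l) (hl : l ≤ i) (hn : i < n) (hv : Out c n v) (h : Dn B c i v) :
    Dn B c l v := F.dn_mono A h0 hl hn h fun j _ _ => hv j (by omega) (by omega)

theorem Flat.gate {B : V → V → V → Prop} {c : ℕ → V} {n i : ℕ} {v : V} (F : Flat B c n)
    (A : Ax B) (h0 : 0 < i) (hn : i < n) (hv : Out c n v) :
    (Dn B c i v → B (c i) (c 0) v) ∧ (¬ Dn B c i v → B (c i) (c n) v) :=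
  ⟨fun hd => F.dn_zero A h0 hn hd fun j _ _ => hv j (by omega) (by omega),
    fun hd => F.up_last A h0 hn hd fun j _ _ => hv j (by omega) (by omega)⟩

theorem pass_by {B : V → V → V → Prop} {a b : ℕ → V} {n m i l k : ℕ} (A : Ax B)
    (Fa : Flat B a n) (Fb : Flat B b m) (o1 : Out b m (a 0)) (o2 : Out a n (b k))
    (o3 : Out a n (b l)) (c1 : 0 < i) (c2 : i < n) (c4 : l ≤ k) (c5 : k < m)
    (h1 : Dn B b k (a 0)) (h2 : Dn B a i (b k)) : Dn B a i (b l) := by
  rcases c4.eq_or_lt with rfl | c4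
  · exact h2
  · have h3 := (Fb.dn_to A c5 h1 l c4 fun j _ _ => o1 j (by omega) (by omega)).1
    exact (Flat.dn_iff A (A.trl' ((Fa.gate A c1 c2 o2).1 h2) (A.symm h3)) (o3 i c1 c2)).2 h2

/-- Extension along two flat paths from a core of five points. -/
theorem two_paths [Finite V] {B : V → V → V → Prop} {K : Set V} {D : V → V → ℝ} {a b : ℕ → V}
    {n m : ℕ} {h : V} (A : Ax B) (Fa : Flat B a n) (Fb : Flat B b m)
    (hK : ∀ v, v ∈ K ↔ v = a 0 ∨ v = a n ∨ v = b 0 ∨ v = b m ∨ v = h)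
    (ka : ∀ i, 0 < i → i < n → a i ∉ K) (kb : ∀ k, 0 < k → k < m → b k ∉ K)
    (ab : ∀ i k, 0 < i → i < n → 0 < k → k < m → a i ≠ b k) (R : RealOn True B K D)
    (sa : ∀ i, Mid B a n i → ∀ v ∈ K, ∀ v' ∈ K, Dn B a i v → ¬ Dn B a i v' →
      D (a 0) v - D (a n) v < D (a 0) v' - D (a n) v')
    (sb : ∀ k, Mid B b m k → ∀ v ∈ K, ∀ v' ∈ K, Dn B b k v → ¬ Dn B b k v' →
      D (b 0) v - D (b m) v < D (b 0) v' - D (b m) v')
    (nb : ∀ k, 0 < k → k < m → Dn B b k (a n) → Dn B b k (a 0))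
    (wp : ∀ i k, Mid B a n i → Mid B b m k → Dn B a i (b 0) → ¬ Dn B a i (b m) →
      Dn B b k (a 0) → ¬ Dn B b k (a n) → ¬ Dn B a i h → ¬ Dn B b k h → Dn B a i (b k) →
      D (a 0) (b 0) - D (a n) (b m) - (D (a 0) h - D (a n) h) < D (b 0) h - D (b m) h)
    (wm : ∀ i k, Mid B a n i → Mid B b m k → Dn B a i (b 0) → ¬ Dn B a i (b m) →
      Dn B b k (a 0) → ¬ Dn B b k (a n) → Dn B a i h → Dn B b k h → ¬ Dn B a i (b k) →
      D (b 0) h - D (b m) h < D (a 0) (b 0) - D (a n) (b m) - (D (a 0) h - D (a n) h)) :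
    ∃ D', RealOn True B (K ∪ Inn b m ∪ Inn a n) D' := by
  have kp : a 0 ∈ K := (hK _).2 (by simp)
  have kq : a n ∈ K := (hK _).2 (by simp)
  have kr : b 0 ∈ K := (hK _).2 (by simp)
  have ks : b m ∈ K := (hK _).2 (by simp)
  have kh : h ∈ K := (hK _).2 (by simp)
  have oa : ∀ v ∈ K ∪ Inn b m, ∀ i, 0 < i → i < n → v ≠ a i := by
    rintro v (hv | ⟨k, c1, c2, rfl⟩) i c3 c4
    · exact fun e => ka i c3 c4 (e ▸ hv)
    · exact (ab i k c3 c4 c1 c2).symm
  have ob : ∀ v ∈ K, ∀ k, 0 < k → k < m → v ≠ b k := fun v hv k c1 c2 e => kb k c1 c2 (e ▸ hv)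
  have ib : ∀ k, 0 < k → k < m → b k ∈ K ∪ Inn b m := fun k c1 c2 => Or.inr ⟨k, c1, c2, rfl⟩
  have na : ∀ l i, 0 < l → l ≤ i → i < n → ∀ v ∈ K ∪ Inn b m, Dn B a i v → Dn B a l v :=
    fun l i c1 c2 c3 v hv => Fa.nest A c1 c2 c3 (oa v hv)
  have nbb : ∀ l k, 0 < l → l ≤ k → k < m → ∀ v ∈ K, Dn B b k v → Dn B b l v :=
    fun l k c1 c2 c3 v hv => Fb.nest A c1 c2 c3 (ob v hv)
  have ga : ∀ i, 0 < i → i < n → ∀ v ∈ K ∪ Inn b m,
      (Dn B a i v → B (a i) (a 0) v) ∧ (¬ Dn B a i v → B (a i) (a n) v) := fun i c1 c2 v hv =>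
    Fa.gate A c1 c2 (oa v hv)
  have gb : ∀ k, 0 < k → k < m → ∀ v ∈ K,
      (Dn B b k v → B v (b 0) (b k)) ∧ (¬ Dn B b k v → B v (b m) (b k)) := fun k c1 c2 v hv =>
    ⟨fun hd => A.symm ((Fb.gate A c1 c2 (ob v hv)).1 hd),
      fun hd => A.symm ((Fb.gate A c1 c2 (ob v hv)).2 hd)⟩
  have via : ∀ i, 0 < i → i < n → ∀ x ∈ K ∪ Inn b m, ∀ y, B (a i) x y →
      (Dn B a i x ↔ Dn B a i y) := fun i c1 c2 x hx y hxy =>
    Flat.dn_iff A hxy (oa x hx i c1 c2)
  have pass : ∀ i l k, 0 < i → i < n → 0 < l → l ≤ k → k < m → Dn B b k (a 0) →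
      Dn B a i (b k) → Dn B a i (b l) := fun i l k c1 c2 c3 c4 c5 =>
    pass_by A Fa Fb (ob _ kp) (oa _ (ib k (by omega) c5)) (oa _ (ib l c3 (by omega))) c1 c2 c4 c5
  have s1 := R.symm (a 0) (b 0)
  have s2 := R.symm (a 0) (b m)
  have s3 := R.symm (a n) (b 0)
  have s4 := R.symm (a n) (b m)
  have s5 := R.symm (b 0) (b m)
  have s6 := R.symm (a 0) (a n)
  have z1 := R.zero (a 0)
  have z2 := R.zero (a n)
  have z3 := R.zero (b 0)
  have z4 := R.zero (b m)
  obtain ⟨θ, t1, t2, t3⟩ := thr (Z := Option V)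
    (fun z => z.elim (D (a 0) (b 0) - D (a n) (b m) - (D (a 0) h - D (a n) h))
      fun v => D (b 0) v - D (b m) v)
    (fun k z => Mid B b m k ∧ z.elim (Dn B b k (a 0) ∧ ¬ Dn B b k (a n) ∧ ∃ i, Mid B a n i ∧
      Dn B a i (b 0) ∧ ¬ Dn B a i (b m) ∧ ¬ Dn B a i h ∧ Dn B a i (b k))
      fun v => v ∈ K ∧ Dn B b k v)
    (fun k z => Mid B b m k ∧ z.elim (Dn B b k (a 0) ∧ ¬ Dn B b k (a n) ∧ ∃ i, Mid B a n i ∧
      Dn B a i (b 0) ∧ ¬ Dn B a i (b m) ∧ Dn B a i h ∧ ¬ Dn B a i (b k))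
      fun v => v ∈ K ∧ ¬ Dn B b k v) (by
      rintro l k (_ | v) (_ | v') hl ⟨mk, h1⟩ ⟨ml, h2⟩
      · obtain ⟨c1, -, i, mi, -, -, c2, c3⟩ := h1
        obtain ⟨-, -, j, mj, -, -, c4, c5⟩ := h2
        have c6 := pass i l k mi.1 mi.2.1 ml.1 hl mk.2.1 c1 c3
        rcases le_total i j with e | e
        · exact absurd (na i j mi.1 e mj.2.1 _ (Or.inl kh) c4) c2
        · exact absurd (na j i mj.1 e mi.2.1 _ (ib l ml.1 ml.2.1) c6) c5
      · obtain ⟨c1, c0, i, mi, c2, c3, c4, c5⟩ := h1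
        have c6 := sa i mi _ kr _ kh c2 c4
        have c7 : ¬ Dn B b k v' := fun hd => h2.2 (nbb l k ml.1 hl mk.2.1 _ h2.1 hd)
        have c8 := R.le kr kq ks
        have c9 := R.le kq kr ks
        have c10 := R.le kq ks kr
        simp only [Option.elim]
        rcases (hK v').1 h2.1 with rfl | rfl | rfl | rfl | rfl
        · exact absurd c1 c7
        · linarith
        · exact absurd mk.2.2.1 c7
        · linarith
        · exact wp i k mi mk c2 c3 c1 c0 c4 c7 c5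
      · obtain ⟨c1, c0, i, mi, c2, c3, c4, c5⟩ := h2
        have c6 := sa i mi _ kh _ ks c4 c3
        have c7 : Dn B b l v := nbb l k ml.1 hl mk.2.1 _ h1.1 h1.2
        have c10 := R.le kp kr ks
        simp only [Option.elim]
        rcases (hK v).1 h1.1 with rfl | rfl | rfl | rfl | rfl
        · linarith
        · exact absurd c7 c0
        · linarith
        · exact absurd c7 ml.2.2.2
        · exact wm i l mi ml c2 c3 c1 c0 c4 c7 c5
      · exact sb l ml v h1.1 v' h2.1 (nbb l k ml.1 hl mk.2.1 _ h1.1 h1.2) h2.2)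
  have u2 : ∀ k, Mid B b m k → ∀ v ∈ K, Dn B b k v → D (b 0) v - D (b m) v < θ k :=
    fun k mk v hv hd => t2 k (some v) ⟨mk, hv, hd⟩
  have u3 : ∀ k, Mid B b m k → ∀ v ∈ K, ¬ Dn B b k v → θ k < D (b 0) v - D (b m) v :=
    fun k mk v hv hd => t3 k (some v) ⟨mk, hv, hd⟩
  obtain ⟨E, R1, e1, e2⟩ := ext_theta A Fb R kr ks kb θ (fun l k hl _ _ => t1 l k hl)
    (fun k mk v hv => ⟨fun hd => Ps.of_pos (by linarith [u2 k mk v hv hd]),
      fun hd => Ps.of_pos (by linarith [u3 k mk v hv hd])⟩)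
    (fun _ k mk => ⟨by linarith [u2 k mk _ kr mk.2.2.1], by linarith [u3 k mk _ ks mk.2.2.2]⟩)
  have typ : ∀ v ∈ K ∪ Inn b m, (∃ w ∈ K, E (a 0) v - E (a n) v = D (a 0) w - D (a n) w ∧
      ∀ i, 0 < i → i < n → (Dn B a i w ↔ Dn B a i v)) ∨
      ∃ k, v = b k ∧ Mid B b m k ∧ Dn B b k (a 0) ∧ ¬ Dn B b k (a n) ∧
        E (a 0) v - E (a n) v = D (a 0) (b 0) - D (a n) (b m) - θ k := by
    rintro v (hv | ⟨k, c1, c2, rfl⟩)
    · exact Or.inl ⟨v, hv, by rw [e1 _ kp v hv, e1 _ kq v hv], fun _ _ _ => Iff.rfl⟩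
    have side : ∀ w ∈ K, B (a 0) w (b k) → B (a n) w (b k) →
        ∃ w ∈ K, E (a 0) (b k) - E (a n) (b k) = D (a 0) w - D (a n) w ∧
          ∀ i, 0 < i → i < n → (Dn B a i w ↔ Dn B a i (b k)) := fun w hw h1 h2 => by
      refine ⟨w, hw, ?_, fun i c3 c4 => via i c3 c4 w (Or.inl hw) _ ?_⟩
      · rw [R1.add _ (Or.inl kp) w (Or.inl hw) _ (ib k c1 c2) h1,
          R1.add _ (Or.inl kq) w (Or.inl hw) _ (ib k c1 c2) h2, e1 _ kp w hw, e1 _ kq w hw]
        ring
      · by_cases hd : Dn B a i (b k)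
        · exact A.trl' ((ga i c3 c4 _ (ib k c1 c2)).1 hd) h1
        · exact A.trl' ((ga i c3 c4 _ (ib k c1 c2)).2 hd) h2
    by_cases h2 : Dn B b k (a n)
    · exact Or.inl (side _ kr ((gb k c1 c2 _ kp).1 (nb k c1 c2 h2)) ((gb k c1 c2 _ kq).1 h2))
    by_cases h1 : Dn B b k (a 0)
    · have mk : Mid B b m k := ⟨c1, c2,
        Fb.dn_none A c1 c2 h1 fun j _ _ => ob _ kp j (by omega) (by omega),
        fun hd => h2 (Fb.dn_all A c1 c2 hd fun j _ _ => ob _ kq j (by omega) (by omega))⟩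
      refine Or.inr ⟨k, rfl, mk, h1, h2, ?_⟩
      rw [R1.add _ (Or.inl kp) _ (Or.inl kr) _ (ib k c1 c2) ((gb k c1 c2 _ kp).1 h1),
        R1.add _ (Or.inl kq) _ (Or.inl ks) _ (ib k c1 c2) ((gb k c1 c2 _ kq).2 h2),
        e1 _ kp _ kr, e1 _ kq _ ks]
      linarith [e2 k mk, R1.symm (b 0) (b k), R1.symm (b m) (b k)]
    · exact Or.inl (side _ ks ((gb k c1 c2 _ kp).2 h1) ((gb k c1 c2 _ kq).2 h2))
  have sep : ∀ l, Mid B a n l → ∀ v ∈ K ∪ Inn b m, ∀ v' ∈ K ∪ Inn b m, Dn B a l v →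
      ¬ Dn B a l v' → E (a 0) v - E (a n) v < E (a 0) v' - E (a n) v' := by
    intro l ml v hv v' hv' h1 h2
    rcases typ v hv with ⟨w, hw, c1, c2⟩ | ⟨k, rfl, mk, c1, c2, c3⟩ <;>
      rcases typ v' hv' with ⟨w', hw', d1, d2⟩ | ⟨k', rfl, mk', d1, d2, d3⟩
    · rw [c1, d1]
      exact sa l ml w hw w' hw' ((c2 l ml.1 ml.2.1).2 h1) fun hd => h2 ((d2 l ml.1 ml.2.1).1 hd)
    · have f1 : ¬ Dn B a l (b m) := fun hd => h2 ((via l ml.1 ml.2.1 _ (Or.inl ks) _
        (A.trl' ((ga l ml.1 ml.2.1 _ hv').2 h2) ((gb k' mk'.1 mk'.2.1 _ kq).2 d2))).1 hd)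
      have f2 := u3 k' mk' _ kq d2
      have f3 := (c2 l ml.1 ml.2.1).2 h1
      have f4 := R.le kq kp kr
      rw [c1, d3]
      rcases (hK w).1 hw with rfl | rfl | rfl | rfl | rfl
      · linarith
      · exact absurd f3 ml.2.2.2
      · linarith
      · exact absurd f3 f1
      · by_cases hr : Dn B a l (b 0)
        · have := t3 k' none ⟨mk', d1, d2, l, ml, hr, f1, f3, h2⟩
          simp only [Option.elim] at this
          linarith
        · linarith [sa l ml _ hw _ kr f3 hr]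
    · have f1 : Dn B a l (b 0) := (via l ml.1 ml.2.1 _ (Or.inl kr) _
        (A.trl' ((ga l ml.1 ml.2.1 _ hv).1 h1) ((gb k mk.1 mk.2.1 _ kp).1 c1))).2 h1
      have f2 := u2 k mk _ kp c1
      have f3 : ¬ Dn B a l w' := fun hd => h2 ((d2 l ml.1 ml.2.1).1 hd)
      have f4 := R.le kp kq ks
      rw [c3, d1]
      rcases (hK w').1 hw' with rfl | rfl | rfl | rfl | rfl
      · exact absurd ml.2.2.1 f3
      · linarith
      · exact absurd f1 f3
      · linarith
      · by_cases hs : Dn B a l (b m)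
        · linarith [sa l ml _ ks _ hw' hs f3]
        · have := t2 k none ⟨mk, c1, c2, l, ml, f1, hs, f3, h1⟩
          simp only [Option.elim] at this
          linarith
    · have : k < k' := by
        by_contra hc
        exact h2 (pass l k' k ml.1 ml.2.1 mk'.1 (by omega) mk.2.1 c1 h1)
      linarith [t1 k k' this]
  obtain ⟨η, v1, v2, v3⟩ := thr (Z := V) (fun v => E (a 0) v - E (a n) v)
    (fun i v => Mid B a n i ∧ v ∈ K ∪ Inn b m ∧ Dn B a i v)
    (fun i v => Mid B a n i ∧ v ∈ K ∪ Inn b m ∧ ¬ Dn B a i v)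
    (fun l i v v' hl ⟨mi, hv, h1⟩ ⟨ml, hv', h2⟩ =>
      sep l ml v hv v' hv' (na l i ml.1 hl mi.2.1 v hv h1) h2)
  obtain ⟨D', R', -⟩ := ext_theta A Fa R1 (Or.inl kp) (Or.inl kq)
    (fun i c1 c2 hv => oa _ hv i c1 c2 rfl) η (fun l k hl _ _ => v1 l k hl)
    (fun i mi v hv => ⟨fun hd => Ps.of_pos (by linarith [v2 i v ⟨mi, hv, hd⟩]),
      fun hd => Ps.of_pos (by linarith [v3 i v ⟨mi, hv, hd⟩])⟩)
    (fun _ i mi => ⟨by
      linarith [v2 i _ ⟨mi, Or.inl kp, mi.2.2.1⟩, R1.zero (a 0), R1.symm (a 0) (a n)], by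
      linarith [v3 i _ ⟨mi, Or.inl kq, mi.2.2.2⟩, R1.zero (a n)]⟩)
  exact ⟨D', R'⟩

end Pool.Agent.P.MP_d7339e_co.H
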