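import Pool.Agent.P.MP_d7339e_co.H.Core

/-! Compliant gaps, and two flat paths with one more point. -/

set_option autoImplicit false

namespace Pool.Agent.P.MP_d7339e_co.H

/-- The relation after inserting a chain of points into the gap between `x` and `y`. -/
def sb {S J : Type} [LinearOrder J] (B : S → S → S → Prop) (x y : S) (X : J → S → Prop) :
    S ⊕ J → S ⊕ J → S ⊕ J → Prop
  | .inl u, .inl z, .inl v => B u z v
  | .inl u, .inr _, .inl v => (B u x y ∧ B u y v) ∨ (B v x y ∧ B v y u)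
  | .inr i, .inl z, .inl v => (X i v ∧ B x z v) ∨ (¬ X i v ∧ B y z v)
  | .inl u, .inl z, .inr i => (X i u ∧ B x z u) ∨ (¬ X i u ∧ B y z u)
  | .inr i, .inr j, .inl v => (X i v ∧ j ≤ i) ∨ (¬ X i v ∧ i ≤ j)
  | .inl u, .inr j, .inr i => (X i u ∧ j ≤ i) ∨ (¬ X i u ∧ i ≤ j)
  | .inr _, .inl _, .inr _ => False
  | .inr i, .inr j, .inr k => (i ≤ j ∧ j ≤ k) ∨ (k ≤ j ∧ j ≤ i)

theorem sb_ax {S J : Type} [LinearOrder J] {B : S → S → S → Prop} {x y : S} {X : J → S → Prop}
    (A : Ax B) (hxy : x ≠ y) (hg : Gap B x y) (hn : ∀ i j v, i ≤ j → X j v → X i v)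
    (hx : ∀ i, X i x) (hy : ∀ i, ¬ X i y) (h1 : ∀ i v z, X i v → B x z v → X i z)
    (h2 : ∀ i v z, X i z → B y z v → X i v) : Ax (sb B x y X) := by
  have a1 := @A.refl
  have a2 := @A.symm
  have a3 := @A.trl
  have a4 := @A.trr
  have a5 := @A.anti
  have a6 := @A.lin
  unfold Gap at hg
  refine ⟨?_, ?_, ?_, ?_, ?_, ?_⟩
  · rintro (u | u) (v | v) <;> simp only [sb] <;> grind
  · rintro (u | u) (z | z) (v | v) <;> simp only [sb] <;> grind
  · rintro (u | u) (z | z) (v | v) (w | w) <;> simp only [sb] <;> grind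
  · rintro (u | u) (z | z) (v | v) (w | w) <;> simp only [sb] <;> grind
  · rintro (u | u) (z | z) (v | v) <;> simp only [sb] <;> grind
  · rintro (u | u) (z | z) (v | v) (w | w) <;> simp only [sb] <;> grind

theorem Ax.comap {V W : Type} {B : W → W → W → Prop} (A : Ax B) (f : V → W)
    (hf : Function.Injective f) : Ax fun u z v => B (f u) (f z) (f v) :=
  ⟨fun _ _ => A.refl _ _, A.symm, A.trl, A.trr, fun a b => hf (A.anti a b), A.lin⟩

/-- A gap parallel to a flat path does no harm. -/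
theorem compl_abs {V : Type} {st : Prop} {B : V → V → V → Prop} {c : ℕ → V} {n : ℕ} (A : Ax B)
    (F : Flat B c n) (hn : 1 < n) (hg : Gap B (c 0) (c n)) (E : V → V → Prop)
    (Es : ∀ u v, E u v → E v u) (Ec : ∀ i, i < n → E (c i) (c (i + 1)))
    (hc : ∀ u v, u ≠ v → Gap B u v → E u v ∨ (u = c 0 ∧ v = c n) ∨ (u = c n ∧ v = c 0))
    (H : ∀ B', Ax B' → (∀ u v, u ≠ v → Gap B' u v → E u v) → ∃ D, RealOn st B' Set.univ D) :
    ∃ D, RealOn st B Set.univ D := by
  classical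
  have ox : Out c n (c 0) := fun i a b => F.ne (by omega) (by omega) (by omega)
  have oy : Out c n (c n) := fun i a b => F.ne (by omega) (by omega) (by omega)
  have xy : c 0 ≠ c n := F.ne (by omega) (by omega) (by omega)
  have ng : ∀ k, 0 < k → k < n → ¬ B (c 0) (c k) (c n) := fun k a b h =>
    (hg _ h).elim (ox k a b).symm (oy k a b).symm
  have ni : ∀ u v, Out c n u → Out c n v → ∀ z, B u z v → Out c n z := by
    rintro u v hu hv z h k a b rfl
    have g1 := F.gate A a b hu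
    have g2 := F.gate A a b hv
    by_cases d1 : Dn B c k u <;> by_cases d2 : Dn B c k v
    · exact ox k a b (A.meet h (g1.1 d1) (g2.1 d2))
    · exact ng k a b (A.trr (A.trr' h (g2.2 d2)) (A.symm (g1.1 d1)))
    · exact ng k a b (A.symm (A.trr (A.trr' h (g2.1 d2)) (A.symm (g1.2 d1))))
    · exact oy k a b (A.meet h (g1.2 d1) (g2.2 d2))
  let τ : V → {v // Out c n v} ⊕ {i : ℕ // 0 < i ∧ i < n} := fun v =>
    if h : v ∈ Inn c n then .inr ⟨h.choose, h.choose_spec.1, h.choose_spec.2.1⟩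
    else .inl ⟨v, fun i a b e => h ⟨i, a, b, e⟩⟩
  have t1 : ∀ v (hv : Out c n v), τ v = .inl ⟨v, hv⟩ := fun v hv =>
    dif_neg fun ⟨i, a, b, e⟩ => hv i a b e
  have t2 : ∀ i (a : 0 < i) (b : i < n), τ (c i) = .inr ⟨i, a, b⟩ := fun i a b => by
    have h : c i ∈ Inn c n := ⟨i, a, b, rfl⟩
    have := h.choose_spec
    exact (dif_pos h).trans
      (congrArg _ (Subtype.ext (F.inj _ _ this.2.1.le b.le this.2.2.symm)))
  have cs : ∀ v, Out c n v ∨ ∃ i, 0 < i ∧ i < n ∧ v = c i := fun v => by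
    by_contra h
    push Not at h
    exact h.1 h.2
  have ti : Function.Injective τ := fun u v e => by
    rcases cs u with a | ⟨i, a, b, rfl⟩ <;> rcases cs v with a' | ⟨j, a', b', rfl⟩
    · simpa [t1 u a, t1 v a'] using e
    · simp [t1 u a, t2 j a' b'] at e
    · simp [t1 v a', t2 i a b] at e
    · rw [show i = j by simpa [t2 i a b, t2 j a' b'] using e]
  let X : {i : ℕ // 0 < i ∧ i < n} → {v // Out c n v} → Prop := fun i v =>
    (Dn B c i v ∧ ¬ B (c 0) (c n) v) ∨ B (c n) (c 0) v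
  have hx : ∀ i, X i ⟨_, ox⟩ := fun i => Or.inr (A.refl' _ _)
  have hy : ∀ i, ¬ X i ⟨_, oy⟩ := fun i h =>
    h.elim (fun h => h.2 (A.refl' _ _)) fun h => xy (A.self h)
  have A' := (sb_ax (X := X) (x := ⟨_, ox⟩) (y := ⟨_, oy⟩)
    (A.comap (fun v : {v // Out c n v} => v.1) Subtype.val_injective)
    (fun e => xy (congrArg Subtype.val e))
    (fun z h => (hg z h).imp Subtype.ext Subtype.ext)
    (fun i j v h => Or.imp_left fun h' => ⟨F.nest A i.2.1 h j.2.2 v.2 h'.1, h'.2⟩) hx hy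
    (fun i v z h h' => h.imp (fun h => ⟨(Flat.dn_iff A
      (A.trl' ((F.gate A i.2.1 i.2.2 v.2).1 h.1) h') (z.2 i i.2.1 i.2.2)).2 h.1,
        fun h2 => h.2 (A.trl h' h2)⟩) fun h => A.trr' h h')
    (fun i v z h h' => h.elim (fun h => Or.inl ⟨by
      by_contra hd
      exact hd ((Flat.dn_iff A (A.trl' ((F.gate A i.2.1 i.2.2 v.2).2 hd) h')
        (z.2 i i.2.1 i.2.2)).1 h.1), fun h2 => h.2 (A.trr' h2 h')⟩)
      fun h => Or.inr (A.trl h' h))).comap τ ti
  have half : ∀ i, 0 < i → i < n → ∀ v, Out c n v → Gap (fun u z v => sb (fun u z v :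
      {v // Out c n v} => B u z v) ⟨_, ox⟩ ⟨_, oy⟩ X (τ u) (τ z) (τ v)) (c i) v → E (c i) v := by
    intro i a b v hv h
    by_cases hX : X ⟨i, a, b⟩ ⟨v, hv⟩
    · have h1 := h (c 0) (by
        simp only [t1 v hv, t1 _ ox, t2 i a b, sb]
        exact Or.inl ⟨hX, A.refl _ _⟩)
      obtain rfl := h1.resolve_left (ox i a b)
      obtain ⟨j, rfl⟩ : ∃ j, i = j + 1 := ⟨i - 1, by omega⟩
      rcases Nat.eq_zero_or_pos j with rfl | hj
      · exact Es _ _ (Ec 0 (by omega))
      · rcases h (c j) (by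
          simp only [t1 _ ox, t2 _ a b, t2 j hj (by omega), sb]
          exact Or.inl ⟨hX, Nat.le_succ j⟩) with e | e <;>
          exact absurd e (F.ne (by omega) (by omega) (by omega))
    · have h1 := h (c n) (by
        simp only [t1 v hv, t1 _ oy, t2 i a b, sb]
        exact Or.inr ⟨hX, A.refl _ _⟩)
      obtain rfl := h1.resolve_left (oy i a b)
      by_cases hj : i + 1 = n
      · exact hj ▸ Ec i b
      · rcases h (c (i + 1)) (by
          simp only [t1 _ oy, t2 _ a b, t2 (i + 1) (by omega) (by omega), sb]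
          exact Or.inr ⟨hX, Nat.le_succ i⟩) with e | e <;>
          exact absurd e (F.ne (by omega) (by omega) (by omega))
  have both : ∀ i j, 0 < i → i < j → j < n → Gap (fun u z v => sb (fun u z v :
      {v // Out c n v} => B u z v) ⟨_, ox⟩ ⟨_, oy⟩ X (τ u) (τ z) (τ v)) (c i) (c j) →
      E (c i) (c j) := by
    intro i j a b d h
    rcases h (c (i + 1)) (by
      simp only [t2 i a (by omega), t2 j (by omega) d, t2 (i + 1) (by omega) (by omega), sb]
      exact Or.inl ⟨Nat.le_succ i, b⟩) with e | e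
    · exact absurd e (F.ne (by omega) (by omega) (by omega))
    · exact e ▸ Ec i (by omega)
  obtain ⟨D, R⟩ := H _ A' fun u v huv h => by
    rcases cs u with a | ⟨i, a, b, rfl⟩ <;> rcases cs v with a' | ⟨j, a', b', rfl⟩
    · have h1 : Gap B u v := fun z hz => h z (by
        simp only [t1 u a, t1 v a', t1 z (ni u v a a' z hz), sb]
        exact hz)
      rcases hc u v huv h1 with e | ⟨rfl, rfl⟩ | ⟨rfl, rfl⟩
      · exact e
      · rcases h (c 1) (by
          simp only [t1 _ ox, t1 _ oy, t2 1 (by omega) hn, sb]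
          exact Or.inl ⟨A.refl _ _, A.refl' _ _⟩) with e | e <;>
          exact absurd e (F.ne (by omega) (by omega) (by omega))
      · rcases h (c 1) (by
          simp only [t1 _ ox, t1 _ oy, t2 1 (by omega) hn, sb]
          exact Or.inr ⟨A.refl _ _, A.refl' _ _⟩) with e | e <;>
          exact absurd e (F.ne (by omega) (by omega) (by omega))
    · exact Es _ _ (half j a' b' u a (A'.gap_symm h))
    · exact half i a b v a' h
    · rcases lt_trichotomy i j with e | e | e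
      · exact both i j a e b' h
      · exact absurd (congrArg c e) huv
      · exact Es _ _ (both j i a' e b (A'.gap_symm h))
  have add := fun u z v => R.add u trivial z trivial v trivial
  have tri := fun u z v => R.tri u trivial z trivial v trivial
  have R0 : RealOn st B {v | Out c n v} D := ⟨R.symm, R.zero,
    fun u _ v _ => R.pos u trivial v trivial,
    fun u a z b v d h => add u z v (by simpa only [t1 u a, t1 z b, t1 v d, sb] using h),
    fun u a z b v d h => tri u z v (by simpa only [t1 u a, t1 z b, t1 v d, sb] using h)⟩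
  obtain ⟨D', R', -⟩ := ext_theta A F R0 ox oy (fun k a b h => h k a b rfl)
    (fun k => D (c k) (c n) - D (c k) (c 0)) (fun l k h ml mk => by
      have a1 := add (c 0) (c l) (c k) (by
        simp only [t1 _ ox, t2 l ml.1 ml.2.1, t2 k mk.1 mk.2.1, sb]
        exact Or.inl ⟨hx _, h.le⟩)
      have a2 := add (c n) (c k) (c l) (by
        simp only [t1 _ oy, t2 l ml.1 ml.2.1, t2 k mk.1 mk.2.1, sb]
        exact Or.inr ⟨hy _, h.le⟩)
      have a3 := R.pos (c l) trivial (c k) trivial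
        (F.ne ml.2.1.le mk.2.1.le h.ne)
      linarith [R.symm (c l) (c k), R.symm (c 0) (c l), R.symm (c 0) (c k), R.symm (c n) (c l),
        R.symm (c n) (c k)])
    (fun k mk v hv => by
      have g := F.gate A mk.1 mk.2.1 hv
      constructor
      · intro hd
        have b1 : ¬ B (c 0) (c n) v := fun h =>
          mk.2.2.2 ((Flat.dn_iff A (A.trl' (g.1 hd) h) (oy k mk.1 mk.2.1)).2 hd)
        have hX : X ⟨k, mk.1, mk.2.1⟩ ⟨v, hv⟩ := Or.inl ⟨hd, b1⟩
        have a1 := add (c k) (c 0) v (by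
          simp only [t1 _ ox, t1 v hv, t2 k mk.1 mk.2.1, sb]
          exact Or.inl ⟨hX, A.refl _ _⟩)
        refine (tri (c k) (c n) v ?_).mono (by linarith)
        simp only [t1 _ oy, t1 v hv, t2 k mk.1 mk.2.1, sb]
        exact fun h => h.elim (fun h => b1 h.2) fun h => h.1 hX
      · intro hd
        have b1 : ¬ B (c n) (c 0) v := fun h =>
          hd ((Flat.dn_iff A (A.trl' (g.2 hd) h) (ox k mk.1 mk.2.1)).1 mk.2.2.1)
        have hX : ¬ X ⟨k, mk.1, mk.2.1⟩ ⟨v, hv⟩ := fun h => h.elim (fun h => hd h.1) b1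
        have a1 := add (c k) (c n) v (by
          simp only [t1 _ oy, t1 v hv, t2 k mk.1 mk.2.1, sb]
          exact Or.inr ⟨hX, A.refl _ _⟩)
        refine (tri (c k) (c 0) v ?_).mono (by linarith)
        simp only [t1 _ ox, t1 v hv, t2 k mk.1 mk.2.1, sb]
        exact fun h => h.elim (fun h => hX h.1) fun h => b1 h.2)
    (fun h => absurd h (ng 1 (by omega) hn))
  refine ⟨D', ?_⟩
  rwa [show {v | Out c n v} ∪ Inn c n = Set.univ from Set.eq_univ_of_forall cs] at R'

variable {V : Type} {B : V → V → V → Prop}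

theorem pick (M u v w : ℕ → Prop)
    (h : ∀ i j, M i → M j → i ≤ j → (u j → u i) ∧ (v j → v i) ∧ (w j → w i)) :
    ∃ t < 3, ∀ i, M i → (t = 0 → u i → w i) ∧
      (t = 1 → (w i → u i) ∧ (v i → w i)) ∧ (t = 2 → w i → v i) := by
  by_cases h0 : ∃ i, M i ∧ w i ∧ ¬ u i
  · obtain ⟨i, a, b, c⟩ := h0
    refine ⟨0, by omega, fun j hj => ⟨fun _ d => ?_, by omega, by omega⟩⟩
    rcases le_total i j with e | e
    exacts [absurd ((h i j a hj e).1 d) c, (h j i hj a e).2.2 b]
  by_cases h2 : ∃ i, M i ∧ v i ∧ ¬ w i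
  · obtain ⟨i, a, b, c⟩ := h2
    refine ⟨2, by omega, fun j hj => ⟨by omega, by omega, fun _ d => ?_⟩⟩
    rcases le_total i j with e | e
    exacts [absurd ((h i j a hj e).2.2 d) c, (h j i hj a e).2.1 b]
  · push Not at h0 h2
    exact ⟨1, by omega, fun j hj => ⟨by omega, fun _ => ⟨h0 j hj, h2 j hj⟩, by omega⟩⟩

theorem pickA : ∀ t < 3, ∀ u v w : Bool, (v = true → u = true) → (t = 0 → u = true → w = true) →
    (t = 1 → (w = true → u = true) ∧ (v = true → w = true)) → (t = 2 → w = true → v = true) →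
    ∃ X ∈ chA t, X.testBit 0 = true ∧ X.testBit 1 = false ∧ X.testBit 2 = u ∧
      X.testBit 3 = v ∧ X.testBit 4 = w := by
  intro t ht u v w
  interval_cases t <;> cases u <;> cases v <;> cases w <;> decide

theorem pickB : ∀ t < 3, ∀ u v w : Bool, (v = true → u = true) → (t = 0 → u = true → w = true) →
    (t = 1 → (w = true → u = true) ∧ (v = true → w = true)) → (t = 2 → w = true → v = true) →
    ∃ X ∈ chB t, X.testBit 2 = true ∧ X.testBit 3 = false ∧ X.testBit 0 = u ∧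
      X.testBit 1 = v ∧ X.testBit 4 = w := by
  intro t ht u v w
  interval_cases t <;> cases u <;> cases v <;> cases w <;> decide

theorem adm_of {c κ : ℕ → V} {n i x y X : ℕ} (A : Ax B) (F : Flat B c n) (hx : κ x = c 0)
    (hy : κ y = c n) (out : ∀ j, j < 5 → Out c n (κ j)) (h0 : 0 < i) (hn : i < n)
    (h : ∀ j, j < 5 → (X.testBit j = true ↔ Dn B c i (κ j))) : Adm B κ x y X := by
  intro v z hv hz
  rw [h v hv, h z hz, hx, hy]
  have g := F.gate A h0 hn (out v hv)
  refine ⟨fun a b => (Flat.dn_iff A (A.trl' (g.1 a) b) (out z hz i h0 hn)).2 a, fun a b => ?_⟩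
  by_contra hd
  exact hd ((Flat.dn_iff A (A.trl' (g.2 hd) b) (out z hz i h0 hn)).1 a)

/-- Two disjoint flat paths and one more point. -/
structure Cfg (B : V → V → V → Prop) (a b : ℕ → V) (n m : ℕ) (h : V) : Prop where
  ax : Ax B
  fa : Flat B a n
  fb : Flat B b m
  ab : ∀ i k, i ≤ n → k ≤ m → a i ≠ b k
  ha : ∀ i, i ≤ n → a i ≠ h
  hb : ∀ k, k ≤ m → b k ≠ h
  cov : ∀ v, (∃ i, i ≤ n ∧ v = a i) ∨ (∃ k, k ≤ m ∧ v = b k) ∨ v = h

theorem orient [Finite V] {a b : ℕ → V} {n m : ℕ} {h : V} (C : Cfg B a b n m h)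
    (na : ∀ i, 0 < i → i < n → Dn B a i (b m) → Dn B a i (b 0))
    (nb : ∀ k, 0 < k → k < m → Dn B b k (a n) → Dn B b k (a 0))
    (hng : B (a n) (a 0) (b 0) ∨ B (a n) (b m) (b 0) ∨ B (a n) h (b 0) ∨
      B (a n) (a 0) (b m) ∨ B (a n) (b 0) (b m) ∨ B (a n) h (b m)) :
    ∃ D, RealOn True B Set.univ D := by
  classical
  have A := C.ax
  have n0 := C.fa.pos
  have m0 := C.fb.pos
  let κ : ℕ → V := fun j => [a 0, a n, b 0, b m, h].getD j h
  have k0 : κ 0 = a 0 := rfl
  have k1 : κ 1 = a n := rfl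
  have k2 : κ 2 = b 0 := rfl
  have k3 : κ 3 = b m := rfl
  have k4 : κ 4 = h := rfl
  have inj : ∀ i j, i < 5 → j < 5 → κ i = κ j → i = j := by
    have d1 : a 0 ≠ a n := C.fa.ne (by omega) le_rfl (by omega)
    have d2 : b 0 ≠ b m := C.fb.ne (by omega) le_rfl (by omega)
    have d3 := C.ab 0 0 (by omega) (by omega)
    have d4 := C.ab 0 m (by omega) le_rfl
    have d5 := C.ab n 0 le_rfl (by omega)
    have d6 := C.ab n m le_rfl le_rfl
    have d7 := C.ha 0 (by omega)
    have d8 := C.ha n le_rfl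
    have d9 := C.hb 0 (by omega)
    have d10 := C.hb m le_rfl
    intro i j hi hj e
    interval_cases i <;> interval_cases j <;> simp only [k0, k1, k2, k3, k4] at e <;>
      first | rfl | exact absurd e (by assumption) | exact absurd e.symm (by assumption)
  have ob : ∀ k, k ≤ m → Out a n (b k) := fun k hk i _ c => (C.ab i k c.le hk).symm
  have outa : ∀ j, j < 5 → Out a n (κ j) := fun j hj i c1 c2 => by
    interval_cases j
    exacts [C.fa.ne (by omega) (by omega) (by omega), C.fa.ne (by omega) (by omega) (by omega),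
      ob 0 (by omega) i c1 c2, ob m le_rfl i c1 c2, (C.ha i c2.le).symm]
  have outb : ∀ j, j < 5 → Out b m (κ j) := fun j hj i c1 c2 => by
    interval_cases j
    exacts [C.ab 0 i (by omega) c2.le, C.ab n i le_rfl c2.le,
      C.fb.ne (by omega) (by omega) (by omega), C.fb.ne (by omega) (by omega) (by omega),
      (C.hb i c2.le).symm]
  obtain ⟨ia, ha, pa⟩ := pick (Mid B a n) (fun i => Dn B a i (b 0)) (fun i => Dn B a i (b m))
    (fun i => Dn B a i h) (fun i j c d e => ⟨C.fa.nest A c.1 e d.2.1 (outa 2 (by omega)),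
      C.fa.nest A c.1 e d.2.1 (outa 3 (by omega)), C.fa.nest A c.1 e d.2.1 (outa 4 (by omega))⟩)
  obtain ⟨ib, hb, pb⟩ := pick (Mid B b m) (fun i => Dn B b i (a 0)) (fun i => Dn B b i (a n))
    (fun i => Dn B b i h) (fun i j c d e => ⟨C.fb.nest A c.1 e d.2.1 (outb 0 (by omega)),
      C.fb.nest A c.1 e d.2.1 (outb 1 (by omega)), C.fb.nest A c.1 e d.2.1 (outb 4 (by omega))⟩)
  have xa : ∀ i, Mid B a n i → ∃ X ∈ chA ia, ∀ j, j < 5 → (X.testBit j = true ↔ Dn B a i (κ j)) :=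
    fun i c => by
      obtain ⟨X, h1, h2, h3, h4, h5, h6⟩ := pickA ia ha (decide (Dn B a i (b 0)))
        (decide (Dn B a i (b m))) (decide (Dn B a i h)) (by simpa using na i c.1 c.2.1)
        (by simpa using (pa i c).1) (by simpa using (pa i c).2.1) (by simpa using (pa i c).2.2)
      refine ⟨X, h1, fun j hj => ?_⟩
      interval_cases j <;> simp [k0, k1, k2, k3, k4, h2, h3, h4, h5, h6, c.2.2.1, c.2.2.2]
  have xb : ∀ i, Mid B b m i → ∃ X ∈ chB ib, ∀ j, j < 5 → (X.testBit j = true ↔ Dn B b i (κ j)) :=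
    fun i c => by
      obtain ⟨X, h1, h2, h3, h4, h5, h6⟩ := pickB ib hb (decide (Dn B b i (a 0)))
        (decide (Dn B b i (a n))) (decide (Dn B b i h)) (by simpa using nb i c.1 c.2.1)
        (by simpa using (pb i c).1) (by simpa using (pb i c).2.1) (by simpa using (pb i c).2.2)
      refine ⟨X, h1, fun j hj => ?_⟩
      interval_cases j <;> simp [k0, k1, k2, k3, k4, h2, h3, h4, h5, h6, c.2.2.1, c.2.2.2]
  obtain ⟨d, d1, d2, d3, d4, d5, d6⟩ := core A inj hng ha hb (decide (∃ i k, Mid B a n i ∧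
    Mid B b m k ∧ Dn B b k (a 0) ∧ ¬ Dn B a i h ∧ ¬ Dn B b k h ∧ Dn B a i (b k)))
  let ι : V → ℕ := fun v => if e : ∃ j, j < 5 ∧ v = κ j then e.choose else 0
  have i1 : ∀ v, ι v < 5 := fun v => by
    simp only [ι]
    split_ifs with e
    exacts [e.choose_spec.1, by omega]
  have i2 : ∀ j, j < 5 → ι (κ j) = j := fun j hj => by
    have e : ∃ j', j' < 5 ∧ κ j = κ j' := ⟨j, hj, rfl⟩
    exact (dif_pos e).trans (inj _ _ e.choose_spec.1 hj e.choose_spec.2.symm)
  have z0 : ∀ j, j < 5 → d j j = 0 := fun j hj => by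
    have := (d2 j j j hj hj hj).1 (A.refl _ _)
    omega
  let D : V → V → ℝ := fun u v => d (ι u) (ι v)
  have dk : ∀ i j, i < 5 → j < 5 → D (κ i) (κ j) = d i j := fun i j hi hj => by
    simp only [D, i2 i hi, i2 j hj]
  have R : RealOn True B {v | ∃ j, j < 5 ∧ v = κ j} D := by
    refine ⟨fun u v => by simp only [D, d1 (ι u)], fun u => by simp [D, z0 _ (i1 u)], ?_, ?_, ?_⟩
    · rintro _ ⟨i, hi, rfl⟩ _ ⟨j, hj, rfl⟩ e
      have := (d2 i j i hi hj hi).2 fun h' => e (A.self h').symm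
      rw [dk i j hi hj, Nat.cast_pos]
      have := d1 j i
      omega
    · rintro _ ⟨i, hi, rfl⟩ _ ⟨j, hj, rfl⟩ _ ⟨k, hk, rfl⟩ e
      rw [dk i j hi hj, dk i k hi hk, dk j k hj hk]
      exact_mod_cast (d2 i j k hi hj hk).1 e
    · rintro _ ⟨i, hi, rfl⟩ _ ⟨j, hj, rfl⟩ _ ⟨k, hk, rfl⟩ e
      rw [dk i j hi hj, dk i k hi hk, dk j k hj hk]
      refine Ps.of_pos (sub_pos.2 ?_)
      exact_mod_cast (d2 i j k hi hj hk).2 e
  have sp : ∀ x y X v w, x < 5 → y < 5 → v < 5 → w < 5 → Sep d x y X → X.testBit v = true →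
      ¬ X.testBit w = true →
      D (κ x) (κ v) - D (κ y) (κ v) < D (κ x) (κ w) - D (κ y) (κ w) := by
    intro x y X v w hx hy hv hw hs h1 h2
    rw [dk x v hx hv, dk y v hy hv, dk x w hx hw, dk y w hy hw]
    have : (d x v : ℝ) + d y w < d x w + d y v := by
      exact_mod_cast hs v w hv hw h1 (by simpa using h2)
    linarith
  have e1 := dk 0 2 (by omega) (by omega)
  have e2 := dk 1 4 (by omega) (by omega)
  have e3 := dk 3 4 (by omega) (by omega)
  have e4 := dk 2 4 (by omega) (by omega)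
  have e5 := dk 1 3 (by omega) (by omega)
  have e6 := dk 0 4 (by omega) (by omega)
  simp only [k0, k1, k2, k3, k4] at e1 e2 e3 e4 e5 e6
  obtain ⟨D', R'⟩ := two_paths (K := {v | ∃ j, j < 5 ∧ v = κ j}) (h := h) A C.fa C.fb
    (fun v => ⟨by
      rintro ⟨j, hj, rfl⟩
      interval_cases j <;> simp [k0, k1, k2, k3, k4], by
      rintro (rfl | rfl | rfl | rfl | rfl)
      exacts [⟨0, by omega, rfl⟩, ⟨1, by omega, rfl⟩, ⟨2, by omega, rfl⟩, ⟨3, by omega, rfl⟩,
        ⟨4, by omega, rfl⟩]⟩)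
    (fun i c1 c2 ⟨j, hj, e⟩ => outa j hj i c1 c2 e.symm)
    (fun i c1 c2 ⟨j, hj, e⟩ => outb j hj i c1 c2 e.symm)
    (fun i k _ c1 _ c2 => C.ab i k c1.le c2.le) R
    (by
      rintro i c _ ⟨v, hv, rfl⟩ _ ⟨w, hw, rfl⟩ h1 h2
      obtain ⟨X, x1, x2⟩ := xa i c
      exact sp 0 1 X v w (by omega) (by omega) hv hw
        (d3 X x1 (adm_of A C.fa k0 k1 outa c.1 c.2.1 x2)) ((x2 v hv).2 h1)
        fun e => h2 ((x2 w hw).1 e))
    (by
      rintro i c _ ⟨v, hv, rfl⟩ _ ⟨w, hw, rfl⟩ h1 h2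
      obtain ⟨X, x1, x2⟩ := xb i c
      exact sp 2 3 X v w (by omega) (by omega) hv hw
        (d4 X x1 (adm_of A C.fb k2 k3 outb c.1 c.2.1 x2)) ((x2 v hv).2 h1)
        fun e => h2 ((x2 w hw).1 e))
    nb
    (fun i k mi mk c1 c2 c3 c4 c5 c6 c7 => by
      have := d5 (decide_eq_true ⟨i, k, mi, mk, c3, c5, c6, c7⟩)
        (fun e => c5 ((pa i mi).1 e c1)) (fun e => c6 ((pb k mk).1 e c3))
        (adm_of A C.fa k0 k1 outa mi.1 mi.2.1 fun j hj => by
          interval_cases j <;> simp [k0, k1, k2, k3, k4, c1, c2, c5, mi.2.2.1, mi.2.2.2] <;> rfl)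
        (adm_of A C.fb k2 k3 outb mk.1 mk.2.1 fun j hj => by
          interval_cases j <;> simp [k0, k1, k2, k3, k4, c3, c4, c6, mk.2.2.1, mk.2.2.2] <;> rfl)
      have : (d 0 2 : ℝ) + d 1 4 + d 3 4 < d 2 4 + d 1 3 + d 0 4 := by exact_mod_cast this
      linarith)
    (fun i k mi mk c1 c2 c3 c4 c5 c6 c7 => by
      have := d6 (decide_eq_false (by
          rintro ⟨i', k', mi', mk', f1, f2, f3, f4⟩
          have g1 : k ≤ k' := not_lt.1 fun e =>
            f3 (C.fb.nest A mk'.1 e.le mk.2.1 (outb 4 (by omega)) c6)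
          have g2 : i ≤ i' := not_lt.1 fun e =>
            f2 (C.fa.nest A mi'.1 e.le mi.2.1 (outa 4 (by omega)) c5)
          exact c7 (C.fa.nest A mi.1 g2 mi'.2.1 (ob k mk.2.1.le) (pass_by A C.fa C.fb
            (outb 0 (by omega)) (ob k' mk'.2.1.le) (ob k mk.2.1.le) mi'.1 mi'.2.1 g1 mk'.2.1 f1 f4))))
        (fun e => c2 ((pa i mi).2.2 e c5)) (fun e => c4 ((pb k mk).2.2 e c6))
        (adm_of A C.fa k0 k1 outa mi.1 mi.2.1 fun j hj => by
          interval_cases j <;> simp [k0, k1, k2, k3, k4, c1, c2, c5, mi.2.2.1, mi.2.2.2] <;> rfl)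
        (adm_of A C.fb k2 k3 outb mk.1 mk.2.1 fun j hj => by
          interval_cases j <;> simp [k0, k1, k2, k3, k4, c3, c4, c6, mk.2.2.1, mk.2.2.2] <;> rfl)
      have : (d 2 4 : ℝ) + d 1 3 + d 0 4 < d 0 2 + d 1 4 + d 3 4 := by exact_mod_cast this
      linarith)
  refine ⟨D', ?_⟩
  rwa [show {v | ∃ j, j < 5 ∧ v = κ j} ∪ Inn b m ∪ Inn a n = Set.univ from
    Set.eq_univ_of_forall fun v => ?_] at R'
  rcases C.cov v with ⟨i, hi, rfl⟩ | ⟨k, hk, rfl⟩ | rfl
  · by_cases e0 : i = 0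
    · exact Or.inl (Or.inl ⟨0, by omega, by rw [e0]; rfl⟩)
    by_cases e1 : i = n
    · exact Or.inl (Or.inl ⟨1, by omega, by rw [e1]; rfl⟩)
    · exact Or.inr ⟨i, by omega, by omega, rfl⟩
  · by_cases e0 : k = 0
    · exact Or.inl (Or.inl ⟨2, by omega, by rw [e0]; rfl⟩)
    by_cases e1 : k = m
    · exact Or.inl (Or.inl ⟨3, by omega, by rw [e1]; rfl⟩)
    · exact Or.inl (Or.inr ⟨k, by omega, by omega, rfl⟩)
  · exact Or.inl (Or.inl ⟨4, by omega, rfl⟩)

theorem wheel [Finite V] {a b : ℕ → V} {n m : ℕ} {h : V} (C : Cfg B a b n m h)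
    (hng : ¬ Gap B (a n) (b 0)) : ∃ D, RealOn True B Set.univ D := by
  have A := C.ax
  have n0 := C.fa.pos
  have m0 := C.fb.pos
  have ob : ∀ k, k ≤ m → Out a n (b k) := fun k hk i _ c => (C.ab i k c.le hk).symm
  have oa : ∀ i, i ≤ n → Out b m (a i) := fun i hi k _ c => C.ab i k hi c.le
  have h3 : B (a n) (a 0) (b 0) ∨ B (a n) (b m) (b 0) ∨ B (a n) h (b 0) := by
    simp only [Gap, not_forall, not_or] at hng
    obtain ⟨z, h1, h2, h3⟩ := hng
    rcases C.cov z with ⟨i, hi, rfl⟩ | ⟨k, hk, rfl⟩ | rfl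
    · rcases Nat.eq_zero_or_pos i with rfl | h0
      · exact Or.inl h1
      have hn : i < n := lt_of_le_of_ne hi fun e => h2 (by rw [e])
      have g := C.fa.gate A h0 hn (ob 0 (by omega))
      by_cases hd : Dn B a i (b 0)
      · exact Or.inl (A.trl' h1 (g.1 hd))
      · exact absurd (A.anti' (g.2 hd) h1) h2
    · rcases hk.eq_or_lt with rfl | hm
      · exact Or.inr (Or.inl h1)
      have h0 : 0 < k := Nat.pos_of_ne_zero fun e => h3 (by rw [e])
      have g := C.fb.gate A h0 hm (oa n le_rfl)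
      by_cases hd : Dn B b k (a n)
      · exact absurd (A.anti' (g.1 hd) (A.symm h1)) h3
      · exact Or.inr (Or.inl (A.trl h1 (A.symm (g.2 hd))))
    · exact Or.inr (Or.inr h1)
  have mix : ∀ i k x y, 0 < i → i < n → 0 < k → k < m → Out a n x → Out a n y →
      B (a 0) x (b k) → B (a n) y (b k) → ¬ Dn B a i x → Dn B a i y → False := by
    intro i k x y c1 c2 _ c4 ox oy h1 h2 h4 h5
    have g := C.fa.gate A c1 c2 (ob k c4.le)
    by_cases hd : Dn B a i (b k)
    · exact h4 ((Flat.dn_iff A (A.trl' (g.1 hd) h1) (ox i c1 c2)).2 hd)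
    · exact hd ((Flat.dn_iff A (A.trl' (g.2 hd) h2) (oy i c1 c2)).1 h5)
  have gb : ∀ k, 0 < k → k < m → ∀ i, i ≤ n →
      (Dn B b k (a i) → B (a i) (b 0) (b k)) ∧ (¬ Dn B b k (a i) → B (a i) (b m) (b k)) :=
    fun k c1 c2 i hi => ⟨fun hd => A.symm ((C.fb.gate A c1 c2 (oa i hi)).1 hd),
      fun hd => A.symm ((C.fb.gate A c1 c2 (oa i hi)).2 hd)⟩
  by_cases hc : (∀ i, 0 < i → i < n → Dn B a i (b m) → Dn B a i (b 0)) ∧
      ∀ k, 0 < k → k < m → Dn B b k (a n) → Dn B b k (a 0)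
  · exact orient C hc.1 hc.2 (by tauto)
  have key : (∀ i, 0 < i → i < n → Dn B a i (b 0) → Dn B a i (b m)) ∧
      ∀ k, 0 < k → k < m → Dn B b k (a 0) → Dn B b k (a n) := by
    rw [not_and_or] at hc
    push Not at hc
    rcases hc with ⟨i, c1, c2, c3, c4⟩ | ⟨k, c1, c2, c3, c4⟩
    · refine ⟨fun j d1 d2 d3 => ?_, fun k d1 d2 d3 => ?_⟩
      · rcases le_total i j with e | e
        · exact absurd (C.fa.nest A c1 e d2 (ob 0 (by omega)) d3) c4
        · exact C.fa.nest A d1 e c2 (ob m le_rfl) c3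
      · by_contra d4
        exact mix i k _ _ c1 c2 d1 d2 (ob 0 (by omega)) (ob m le_rfl)
          ((gb k d1 d2 0 (by omega)).1 d3) ((gb k d1 d2 n le_rfl).2 d4) c4 c3
    · refine ⟨fun j d1 d2 d3 => ?_, fun l d1 d2 d3 => ?_⟩
      · by_contra d4
        exact mix j k _ _ d1 d2 c1 c2 (ob m le_rfl) (ob 0 (by omega))
          ((gb k c1 c2 0 (by omega)).2 c4) ((gb k c1 c2 n le_rfl).1 c3) d4 d3
      · rcases le_total k l with e | e
        · exact absurd (C.fb.nest A c1 e d2 (oa 0 (by omega)) d3) c4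
        · exact C.fb.nest A d1 e c2 (oa n le_rfl) c3
  refine orient (b := fun i => b (m - i)) (m := m) (h := h) ⟨A, C.fa, C.fb.rev,
    fun i k hi _ => C.ab i _ hi (by omega), C.ha, fun k _ => C.hb _ (by omega), fun v => ?_⟩
    (by simpa using key.1) (fun k c1 c2 => ?_) (by simp only [Nat.sub_self, Nat.sub_zero]; tauto)
  · refine (C.cov v).imp_right (Or.imp_left ?_)
    rintro ⟨k, hk, rfl⟩
    exact ⟨m - k, by omega, by rw [show m - (m - k) = k by omega]⟩
  · rw [C.fb.dn_rev A c1 c2 (C.ab n _ le_rfl (by omega)),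
      C.fb.dn_rev A c1 c2 (C.ab 0 _ (by omega) (by omega))]
    exact mt (key.2 _ (by omega) (by omega))

end Pool.Agent.P.MP_d7339e_co.H
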