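import Pool.Agent.P.MP_d7339e_co.H.Defs
import Pool.Agent.P.MP_d7339e_co.Basic
import Pool.Agent.P.MP_d7339e_co.H.Main

/-! From path systems to betweenness relations and back. -/

set_option autoImplicit false

namespace Pool.Agent.P.MP_d7339e_co.H

open SimpleGraph

variable {V : Type} {G : SimpleGraph V}

/-- Both notions at once. -/
def Met (st : Prop) (G : SimpleGraph V) : Prop :=
  ∀ P : (u v : V) → G.Walk u v, Sys P → ∃ w : Sym2 V → ℝ, (∀ e ∈ G.edgeSet, 0 < w e) ∧
    ∀ (u v : V) (q : G.Walk u v), q.IsPath → q ≠ P u v →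
      Ps st ((q.edges.map w).sum - ((P u v).edges.map w).sum)

theorem met_false : Metrizable G ↔ Met False G := by
  constructor
  · intro h P S
    obtain ⟨w, h1, h2⟩ := h P S.path S.rev S.cons
    exact ⟨w, h1, fun u v q hq _ => ⟨sub_nonneg.2 (h2 u v q hq), False.elim⟩⟩
  · intro h P a b c
    obtain ⟨w, h1, h2⟩ := h P ⟨a, b, c⟩
    refine ⟨w, h1, fun u v q hq => ?_⟩
    by_cases e : q = P u v
    · rw [e]
    · exact sub_nonneg.1 (h2 u v q hq e).1

theorem met_true : StrictlyMetrizable G ↔ Met True G := by
  constructor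
  · intro h P S
    obtain ⟨w, h1, h2⟩ := h P S.path S.rev S.cons
    exact ⟨w, h1, fun u v q hq e => Ps.of_pos (sub_pos.2 (h2 u v q hq e))⟩
  · intro h P a b c
    obtain ⟨w, h1, h2⟩ := h P ⟨a, b, c⟩
    exact ⟨w, h1, fun u v q hq e => sub_pos.1 (h2 u v q hq e).lt⟩

/-- The abstract form. -/
def AM (st : Prop) (G : SimpleGraph V) : Prop :=
  ∀ B : V → V → V → Prop, Ax B → (∀ u v, u ≠ v → Gap B u v → G.Adj u v) →
    ∃ D, RealOn st B Set.univ D

theorem sys_ax {P : (u v : V) → G.Walk u v} (S : Sys P) : Ax fun u z v => z ∈ (P u v).support := by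
  have trr : ∀ {u z v y}, z ∈ (P u v).support → y ∈ (P u z).support → z ∈ (P y v).support := by
    intro u z v y h1 h2
    have h3 := h1
    rw [S.split (S.trans_left h1 h2), Walk.mem_support_append_iff] at h3
    refine h3.elim (fun h => ?_) id
    rw [S.antisymm h h2]
    exact Walk.start_mem_support _
  refine ⟨fun u v => Walk.start_mem_support _, S.symm, S.trans_left, trr, S.antisymm, ?_⟩
  intro u a b v h1 h2
  have h3 := h2
  rw [S.split h1, Walk.mem_support_append_iff] at h3
  exact h3.symm.imp_left fun h => S.symm (trr (S.symm h1) (S.symm h))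

theorem met_of_am {st : Prop} (h : AM st G) : Met st G := by
  classical
  intro P S
  obtain ⟨D, R⟩ := h _ (sys_ax S) fun u v huv hg => by
    have := S.adj_snd huv
    rwa [(hg _ (Sys.snd_mem u v)).resolve_left this.ne'] at this
  have le := fun u z v => R.le (u := u) (z := z) (v := v) trivial trivial trivial
  let w : Sym2 V → ℝ := Sym2.lift ⟨fun x y => D x y + if (P x y).length = 1 then 0 else 1,
    fun x y => by simp only [R.symm x y, S.rev x y, Walk.length_reverse]⟩
  have w1 : ∀ x y, w s(x, y) = D x y + if (P x y).length = 1 then 0 else 1 := fun _ _ => rfl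
  have w2 : ∀ x y, D x y ≤ w s(x, y) := fun x y => by
    rw [w1]
    split_ifs <;> linarith
  have wq : ∀ {u v} (q : G.Walk u v), D u v ≤ (q.edges.map w).sum := by
    intro u v q
    induction q with
    | nil => simp [R.zero]
    | @cons u x v h q ih =>
      simp only [Walk.edges_cons, List.map_cons, List.sum_cons]
      linarith [le u x v, w2 u x]
  have wp : ∀ {u v} (q : G.Walk u v), q = P u v → (q.edges.map w).sum = D u v := by
    intro u v q
    induction q with
    | nil => simp [R.zero]
    | @cons u x v h q ih =>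
      intro e
      have e1 : q = P x v := S.cons u v _ _ q (e ▸ Walk.isSubwalk_cons q h)
      have e2 : Walk.cons h Walk.nil = P u x :=
        S.cons u v _ _ _ (e ▸ Walk.isSubwalk_of_append_left (p₂ := q) rfl)
      have e3 := R.add u trivial x trivial v trivial (by rw [← e]; simp)
      simp only [Walk.edges_cons, List.map_cons, List.sum_cons]
      rw [ih e1, w1, ← e2, e3]
      simp
  refine ⟨w, fun e he => ?_, fun u v q => ?_⟩
  · induction e using Sym2.ind with
    | _ x y => exact (R.pos x trivial y trivial (G.ne_of_adj he)).trans_le (w2 x y)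
  rw [wp _ rfl]
  induction q with
  | nil => exact fun _ e => absurd (S.self_nil _).symm e
  | @cons u x v h q ih =>
    intro hq e
    simp only [Walk.edges_cons, List.map_cons, List.sum_cons]
    by_cases e1 : q = P x v
    · by_cases e2 : (P u x).length = 1
      · refine (R.tri u trivial x trivial v trivial fun hb => e ?_).mono
          (by linarith [w2 u x, wq q])
        rw [S.split hb, ← e1]
        generalize P u x = r at e2
        cases r with
        | nil => simp at e2
        | cons h' r =>
          cases r with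
          | nil => rfl
          | cons _ _ => simp at e2
      · refine Ps.of_pos ?_
        rw [w1, if_neg e2]
        linarith [le u x v, wq q]
    · exact (ih hq.of_cons e1).mono (by linarith [le u x v, w2 u x])

/-- The walk follows the relation. -/
def Can (B : V → V → V → Prop) : ∀ {u v : V}, G.Walk u v → Prop
  | _, _, .nil => True
  | u, v, @Walk.cons _ _ _ x _ _ q => Gap B u x ∧ B u x v ∧ Can B q

section

variable {B : V → V → V → Prop}

theorem can_supp (A : Ax B) {u v : V} (q : G.Walk u v) (h : Can B q) (z : V) :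
    z ∈ q.support ↔ B u z v := by
  induction q with
  | nil => simpa using ⟨fun e => e ▸ A.refl _ _, A.self⟩
  | @cons u x v a q ih =>
    rw [Walk.support_cons, List.mem_cons, ih h.2.2]
    refine ⟨fun e => e.elim (fun e => e ▸ A.refl _ _) (A.trl' h.2.1), fun e => ?_⟩
    rcases A.lin e h.2.1 with e' | e'
    · exact (h.1 z e').imp_right fun e : z = x => e ▸ A.refl _ _
    · exact Or.inr (A.trr e e')

theorem can_path (A : Ax B) {u v : V} (q : G.Walk u v) (h : Can B q) : q.IsPath := by
  induction q with
  | nil => simp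
  | @cons u x v a q ih =>
    rw [Walk.cons_isPath_iff, can_supp A q h.2.2]
    exact ⟨ih h.2.2, fun e => a.ne (A.anti' h.2.1 e)⟩

theorem can_uniq (A : Ax B) {u v : V} (q : G.Walk u v) :
    ∀ p : G.Walk u v, Can B q → Can B p → q = p := by
  induction q with
  | nil => exact fun p _ hp => (Walk.isPath_iff_nil.1 (can_path A p hp)).eq_nil.symm
  | @cons u x v a q ih =>
    intro p hq hp
    cases p with
    | nil => exact absurd (A.self hq.2.1) a.ne'
    | @cons _ y _ b p =>
      obtain rfl : x = y := (A.lin hq.2.1 hp.2.1).elim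
        (fun e => (hp.1 _ e).resolve_left a.ne') fun e => ((hq.1 _ e).resolve_left b.ne').symm
      rw [ih p hq.2.2 hp.2.2]

theorem can_app (A : Ax B) {u y v : V} (p : G.Walk u y) (q : G.Walk y v)
    (h : Can B (p.append q)) : Can B p ∧ Can B q := by
  induction p with
  | nil => exact ⟨trivial, h⟩
  | cons a p ih =>
    exact ⟨⟨h.1, A.trr' h.2.1 ((can_supp A _ h.2.2 _).1 (by simp)), (ih q h.2.2).1⟩,
      (ih q h.2.2).2⟩

theorem can_rev (A : Ax B) {u v : V} (q : G.Walk u v) (h : Can B q) : Can B q.reverse := by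
  have cat : ∀ {u x v : V} (p : G.Walk u x) (a : G.Adj x v), Can B p → Gap B x v → B u x v →
      Can B (p.append (Walk.cons a Walk.nil)) := by
    intro u x v p a
    induction p with
    | nil => exact fun _ b _ => ⟨b, A.refl' _ _, trivial⟩
    | cons _ p ih => exact fun h b c => ⟨h.1, A.trl c h.2.1, ih a h.2.2 b (A.trr c h.2.1)⟩
  induction q with
  | nil => trivial
  | cons a q ih =>
    rw [Walk.reverse_cons]
    exact cat _ _ (ih h.2.2) (A.gap_symm h.1) (A.symm h.2.1)

theorem can_ex [Finite V] (A : Ax B) (hc : ∀ u v, u ≠ v → Gap B u v → G.Adj u v) (u v : V) :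
    ∃ q : G.Walk u v, Can B q := by
  generalize e : {z | B u z v}.ncard = k
  induction k using Nat.strong_induction_on generalizing u with
  | _ k ih =>
    by_cases h : u = v
    · subst h
      exact ⟨Walk.nil, trivial⟩
    obtain ⟨x, a, b, c⟩ := A.next h
    obtain ⟨q, hq⟩ := ih _ (e ▸ Set.ncard_lt_ncard (s := {z | B x z v})
      ⟨fun z hz => A.trl' b hz, fun hs => a (A.anti' (hs (A.refl u v)) b)⟩ (Set.toFinite _)) x rfl
    exact ⟨Walk.cons (hc u x a.symm c) q, c, b, hq⟩

end

theorem sum_lt_of_sublist {α : Type} {w : α → ℝ} {l l' : List α} (h : l.Sublist l')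
    (hw : ∀ a ∈ l', 0 < w a) :
    (l.map w).sum ≤ (l'.map w).sum ∧ (l.length < l'.length → (l.map w).sum < (l'.map w).sum) := by
  induction h with
  | slnil => simp
  | cons a _ ih =>
    have := (ih fun b hb => hw b (by simp [hb])).1
    have := hw a (by simp)
    simp only [List.map_cons, List.sum_cons]
    exact ⟨by linarith, fun _ => by linarith⟩
  | cons_cons a _ ih =>
    have := ih fun b hb => hw b (by simp [hb])
    simp only [List.map_cons, List.sum_cons, List.length_cons]
    exact ⟨by linarith [this.1], fun h => by linarith [this.2 (by omega)]⟩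

theorem am_of_met [Finite V] {st : Prop} (h : Met st G) : AM st G := by
  classical
  intro B A hc
  choose P hP using can_ex A hc
  have S : Sys P := ⟨fun u v => can_path A _ (hP u v),
    fun u v => can_uniq A _ _ (hP v u) (can_rev A _ (hP u v)), by
      rintro u v x y q ⟨a, b, e⟩
      exact can_uniq A _ _ (can_app A _ _ (can_app A _ _ (e ▸ hP u v)).1).2 (hP x y)⟩
  obtain ⟨w, h1, h2⟩ := h P S
  refine ⟨fun u v => ((P u v).edges.map w).sum, fun u v => ?_, fun u => ?_,
    fun u _ v _ huv => ?_, fun u _ z _ v _ hb => ?_, fun u _ z _ v _ hb => ?_⟩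
  · rw [S.rev u v, Walk.edges_reverse, List.map_reverse, List.sum_reverse]
  · simp [S.self_nil]
  · simpa using (sum_lt_of_sublist (List.nil_sublist (P u v).edges)
      fun e he => h1 e ((P u v).edges_subset_edgeSet he)).2
      (by simpa [Walk.not_nil_iff_lt_length] using S.not_nil huv)
  · rw [S.split ((can_supp A _ (hP u v) z).2 hb)]
    simp
  · have k := sum_lt_of_sublist ((P u z).append (P z v)).edges_bypass_sublist_edges
      fun e he => h1 e (Walk.edges_subset_edgeSet _ he)
    rw [Walk.edges_append, List.map_append, List.sum_append] at k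
    by_cases e : ((P u z).append (P z v)).bypass = P u v
    · refine Ps.of_pos (sub_pos.2 ?_)
      rw [← e]
      refine k.2 (not_le.1 fun hl => hb ((can_supp A _ (hP u v) z).1 ?_))
      rw [← e, Walk.bypass_eq_self_of_length_le_length_bypass _ (by simpa using hl)]
      simp
    · exact (h2 u v _ (Walk.bypass_isPath _) e).mono (by linarith [k.1])

theorem flat_of_path [Finite V] {B : V → V → V → Prop} (A : Ax B) {x y : V} (p : G.Walk x y)
    (hp : p.IsPath) (h0 : 0 < p.length)
    (h : ∀ z ∈ p.support, z ≠ x → z ≠ y → ∀ t, z ≠ t → Gap B z t → s(z, t) ∈ p.edges) :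
    Flat B p.getVert p.length := by
  have inj : ∀ i j, i ≤ p.length → j ≤ p.length → p.getVert i = p.getVert j → i = j :=
    fun i j hi hj e => hp.getVert_injOn hi hj e
  refine ⟨h0, inj, fun k v a b hv => ?_⟩
  obtain ⟨t, t1, t2, t3⟩ := A.next hv.symm
  obtain ⟨i, hi, e⟩ := (Walk.mk_mem_edges_iff_exists _).1 (h _ (p.getVert_mem_support k)
    (fun e => by have := inj k 0 b.le (by omega) (by simpa using e); omega)
    (fun e => by have := inj k _ b.le le_rfl (by simpa using e); omega) t t1.symm t3)
  rcases Sym2.eq_iff.1 e with ⟨e1, rfl⟩ | ⟨rfl, e1⟩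
  · obtain rfl := inj _ _ hi.le b.le e1
    exact Or.inr ⟨t2, t3⟩
  · obtain rfl := inj _ _ hi b.le e1
    exact Or.inl ⟨t2, t3⟩

theorem am_mono {st : Prop} {G' : SimpleGraph V} (h : AM st G) (hG : G' ≤ G) : AM st G' :=
  fun B A hc => h B A fun u v a b => hG (hc u v a b)

theorem am_add [Finite V] {st : Prop} {x y : V} (hf : FlatPair G x y) (h : AM st G) :
    AM st (G ⊔ edge x y) := by
  intro B A hc
  obtain ⟨p, hp, hl, hn⟩ := hf
  have hc' : ∀ u v, u ≠ v → Gap B u v → G.Adj u v ∨ (u = x ∧ v = y) ∨ (u = y ∧ v = x) :=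
    fun u v a b => (hc u v a b).imp_right fun e => ((edge_adj _ _ _ _).1 e).1
  by_cases hg : Gap B x y
  · refine compl_abs A (flat_of_path A p hp (by omega) fun z a b c t d e => hn z a b c t ?_)
      (by omega) (by simpa using hg) G.Adj (fun _ _ => Adj.symm)
      (fun i hi => p.adj_getVert_succ hi) (by simpa using hc') h
    exact (hc' z t d e).resolve_right fun e => e.elim (fun e => b e.1) fun e => c e.1
  · refine h B A fun u v a b => (hc' u v a b).resolve_right ?_
    rintro (⟨rfl, rfl⟩ | ⟨rfl, rfl⟩)
    exacts [hg b, hg (A.gap_symm b)]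

theorem am_base [Finite V] (h : IsBase G) : AM True G := by
  intro B A hc
  obtain ⟨p, q, r, s, h, a, c, ha, hc', pq, rs, d, h1, h2, cov, he⟩ := h
  have pa := a.start_mem_support
  have qa := a.end_mem_support
  have rc := c.start_mem_support
  have sc := c.end_mem_support
  have key : ∀ z t, z ≠ t → Gap B z t → s(z, t) ∈ a.edges ∨ s(z, t) ∈ c.edges ∨
      ((z = p ∨ z = q ∨ z = r ∨ z = s ∨ z = h) ∧ (z = q → t = s ∨ t = h)) := fun z t e g =>
    (he _ (hc z t e g)).imp_right (Or.imp_right fun m => by
      have a1 : q ≠ r := fun e => d q qa (e ▸ rc)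
      have a2 : q ≠ s := fun e => d q qa (e ▸ sc)
      have a3 : q ≠ h := fun e => h1 (e ▸ qa)
      simp only [List.mem_cons, Sym2.eq_iff, List.not_mem_nil] at m
      grind)
  refine wheel (a := a.getVert) (b := c.getVert) (n := a.length) (m := c.length) (h := h)
    ⟨A, flat_of_path A a ha ?_ fun z m b b' t e g => ?_,
      flat_of_path A c hc' ?_ fun z m b b' t e g => ?_,
      fun i k _ _ e => d _ (a.getVert_mem_support i) (e ▸ c.getVert_mem_support k),
      fun i _ e => h1 (e ▸ a.getVert_mem_support i), fun i _ e => h2 (e ▸ c.getVert_mem_support i),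
      fun v => ?_⟩ fun g => ?_
  · exact Nat.pos_of_ne_zero fun e => pq (Walk.eq_of_length_eq_zero e)
  · rcases key z t e g with k | k | ⟨rfl | rfl | rfl | rfl | rfl, -⟩
    exacts [k, absurd (c.fst_mem_support_of_mem_edges k) (d z m), absurd rfl b, absurd rfl b',
      absurd rc (d _ m), absurd sc (d _ m), absurd m h1]
  · exact Nat.pos_of_ne_zero fun e => rs (Walk.eq_of_length_eq_zero e)
  · rcases key z t e g with k | k | ⟨rfl | rfl | rfl | rfl | rfl, -⟩
    exacts [absurd m (d z (a.fst_mem_support_of_mem_edges k)), k, absurd m (d _ pa),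
      absurd m (d _ qa), absurd rfl b, absurd rfl b', absurd m h2]
  · refine (cov v).imp (fun m => ?_) (Or.imp_left fun m => ?_) <;>
      obtain ⟨k, k1, k2⟩ := Walk.mem_support_iff_exists_getVert.1 m <;> exact ⟨k, k2, k1.symm⟩
  · rw [Walk.getVert_length, Walk.getVert_zero] at g
    rcases key q r (fun e => d q qa (e ▸ rc)) g with k | k | ⟨-, k⟩
    · exact d r (a.snd_mem_support_of_mem_edges k) rc
    · exact d q qa (c.fst_mem_support_of_mem_edges k)
    · exact (k rfl).elim rs fun e => h2 (e ▸ rc)

theorem derived_am [Finite V] (h : Derived G) : AM True G := by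
  induction h with
  | base h => exact am_base h
  | delete _ h ih => exact am_mono ih h
  | add _ h ih => exact am_add h ih

theorem met_add [Finite V] {st : Prop} {x y : V} (hf : FlatPair G x y) :
    Met st (G ⊔ edge x y) ↔ Met st G :=
  ⟨fun h => met_of_am (am_mono (am_of_met h) le_sup_left),
    fun h => met_of_am (am_add hf (am_of_met h))⟩

end Pool.Agent.P.MP_d7339e_co.H
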